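import Mathlib

open MeasureTheory Filter Topology
open scoped ENNReal

/-!
# Total hub mass in the random friend tree

We prove that in the random friend tree the hub masses `Z_v = liminf D_n(v) / n` almost surely
sum to one.

Idea of the proof.
* `D_n(v) / n` is a bounded nonnegative supermartingale, because
  `P(W_n = v | T_n) = (1/n) ∑_{u ~ v} 1 / D_n(u) ≤ D_n(v) / n`; hence it converges almost surely.
* Let `X_n` be the number of vertices of degree at least two and `Y_n` the number of vertices with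
  label at least three and degree exactly two. The Lyapunov function `Φ_n = X_n - Y_n / 8`
  satisfies `E[Φ_{n+1} | T_n] ≤ Φ_n + (7/8 Φ_n + 2) / n`, which gives
  `∑_n E[X_n] / (n (n+1)) < ∞` by telescoping.
* The vertices which have degree at least two at time `n` but not at time `m` have total degree
  `M_n` with `E[M_{n+1}/(n+1)] ≤ E[M_n/n] + 2 (2 + E[X_n]) / (n (n+1))`, so `E[M_n / n]` is
  bounded by the tail of a convergent series; Fatou's lemma finishes the proof.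
-/

namespace Pool.Agent.Results.MP_29c4b2_pr.HubMassOne

/-- The degree of the vertex `v` in the graph `G` on `ℕ`: the number of its neighbours. -/
noncomputable def deg (G : SimpleGraph ℕ) (v : ℕ) : ℕ := (G.neighborSet v).ncard

/-- `(T, V, W)` is a random friend tree on the probability space `(Ω, μ)`. The tree `T n` has
vertex set `{1, …, n}` and is represented by its edge set, as a graph on `ℕ`.
* `T 2` is the single edge `{1, 2}`;
* `T (n + 1)` is obtained from `T n` by adding the vertex `n + 1` and the edge `{n + 1, W n}`;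
* given `T n = G`, the vertex `V n` is uniform on `{1, …, n}` and, given also `V n = v`,
  the vertex `W n` is uniform among the neighbours of `v` in `G`. -/
structure IsRandomFriendTree {Ω : Type*} [MeasurableSpace Ω] (μ : Measure Ω)
    (T : ℕ → Ω → SimpleGraph ℕ) (V W : ℕ → Ω → ℕ) : Prop where
  measurable_V : ∀ n, 2 ≤ n → Measurable (V n)
  measurable_W : ∀ n, 2 ≤ n → Measurable (W n)
  T_two : ∀ ω, T 2 ω = SimpleGraph.edge 1 2
  T_succ : ∀ n, 2 ≤ n → ∀ ω, T (n + 1) ω = T n ω ⊔ SimpleGraph.edge (n + 1) (W n ω)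
  law : ∀ n, 2 ≤ n → ∀ (G : SimpleGraph ℕ) (v w : ℕ), 1 ≤ v → v ≤ n → G.Adj v w →
    μ {ω | T n ω = G ∧ V n ω = v ∧ W n ω = w}
      = μ {ω | T n ω = G} * ((n : ℝ≥0∞)⁻¹ * (deg G v : ℝ≥0∞)⁻¹)

/-- The random variable `Z_v = liminf D_n(v) / n`, where `D_n(v)` is the degree of `v` in `T_n`. -/
noncomputable def Z {Ω : Type*} (T : ℕ → Ω → SimpleGraph ℕ) (v : ℕ) (ω : Ω) : ℝ :=
  liminf (fun n : ℕ => (deg (T n ω) v : ℝ) / n) atTop

/-! ### Deterministic part -/

/-- The graph obtained from `G` by keeping only the edges between vertices that are at most `m`. -/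
def R (m : ℕ) (G : SimpleGraph ℕ) : SimpleGraph ℕ where
  Adj v w := G.Adj v w ∧ v ≤ m ∧ w ≤ m
  symm := ⟨fun _ _ h => ⟨h.1.symm, h.2.2, h.2.1⟩⟩
  loopless := ⟨fun v h => G.loopless.irrefl v h.1⟩

/-- Deterministic invariants of the trees. -/
structure Good (n : ℕ) (G : SimpleGraph ℕ) : Prop where
  supp : ∀ v w, G.Adj v w → 1 ≤ v ∧ v ≤ n
  degpos : ∀ v, 1 ≤ v → v ≤ n → 1 ≤ deg G v
  par : ∀ v, 3 ≤ v → v ≤ n → ∃ u, G.Adj v u ∧ 2 ≤ deg G u
  sum : ∑ v ∈ Finset.Icc 1 n, deg G v + 2 = 2 * n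

lemma Good.supp' {n : ℕ} {G : SimpleGraph ℕ} (h : Good n G) {v w : ℕ} (hvw : G.Adj v w) :
    1 ≤ w ∧ w ≤ n := h.supp w v hvw.symm

lemma Good.nbr_finite {n : ℕ} {G : SimpleGraph ℕ} (h : Good n G) (v : ℕ) :
    (G.neighborSet v).Finite :=
  (Set.finite_Icc 1 n).subset fun _ hw => h.supp' hw

lemma Good.R_eq {n : ℕ} {G : SimpleGraph ℕ} (h : Good n G) : R n G = G := by
  ext v w
  constructor
  · intro hh; exact hh.1
  · intro hh; exact ⟨hh, (h.supp _ _ hh).2, (h.supp' hh).2⟩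

lemma R_R {m n : ℕ} (hmn : m ≤ n) (G : SimpleGraph ℕ) : R m (R n G) = R m G := by
  ext v w
  constructor
  · intro hh; exact ⟨hh.1.1, hh.2⟩
  · intro hh; exact ⟨⟨hh.1, hh.2.1.trans hmn, hh.2.2.trans hmn⟩, hh.2⟩

lemma R_sup_edge {m n : ℕ} (hmn : m ≤ n) (G : SimpleGraph ℕ) (w : ℕ) :
    R m (G ⊔ SimpleGraph.edge (n + 1) w) = R m G := by
  ext a b
  constructor
  · rintro ⟨h1, h2, h3⟩
    refine ⟨?_, h2, h3⟩
    rcases h1 with h1 | h1
    · exact h1
    · rw [SimpleGraph.edge_adj] at h1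
      omega
  · rintro ⟨h1, h2⟩
    exact ⟨Or.inl h1, h2⟩

lemma deg_le_of_le {G H : SimpleGraph ℕ} (hGH : ∀ a b, G.Adj a b → H.Adj a b) (v : ℕ)
    (hfin : (H.neighborSet v).Finite) : deg G v ≤ deg H v :=
  Set.ncard_le_ncard (fun w hw => hGH v w hw) hfin

lemma deg_R_eq_zero {m : ℕ} (G : SimpleGraph ℕ) {v : ℕ} (hv : m < v) : deg (R m G) v = 0 := by
  unfold deg
  have : (R m G).neighborSet v = ∅ := by
    ext w
    simp only [SimpleGraph.mem_neighborSet, Set.mem_empty_iff_false, iff_false]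
    rintro ⟨_, h, _⟩
    omega
  rw [this]; simp

lemma deg_step {n : ℕ} {G : SimpleGraph ℕ} (h : Good n G) {w : ℕ} (hw1 : 1 ≤ w) (hwn : w ≤ n)
    (u : ℕ) :
    deg (G ⊔ SimpleGraph.edge (n + 1) w) u
      = deg G u + (if u = w then 1 else 0) + (if u = n + 1 then 1 else 0) := by
  unfold deg
  by_cases h1 : u = w
  · subst h1
    have h2 : u ≠ n + 1 := by omega
    have : (G ⊔ SimpleGraph.edge (n + 1) u).neighborSet u = insert (n + 1) (G.neighborSet u) := by
      ext x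
      simp only [SimpleGraph.mem_neighborSet, SimpleGraph.sup_adj, SimpleGraph.edge_adj,
        Set.mem_insert_iff]
      constructor
      · rintro (hx | ⟨⟨hx, hx'⟩ | ⟨hx, hx'⟩, hx''⟩)
        · exact Or.inr hx
        · omega
        · exact Or.inl hx'
      · rintro (hx | hx)
        · right; subst hx; simp [h2]
        · exact Or.inl hx
    rw [this, Set.ncard_insert_of_notMem _ (h.nbr_finite u)]
    · simp [h2]
    · intro hx
      have := (h.supp' hx).2
      omega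
  · by_cases h2 : u = n + 1
    · subst h2
      have h0 : G.neighborSet (n + 1) = ∅ := by
        ext x
        simp only [SimpleGraph.mem_neighborSet, Set.mem_empty_iff_false, iff_false]
        intro hx
        have := (h.supp _ _ hx).2
        omega
      have : (G ⊔ SimpleGraph.edge (n + 1) w).neighborSet (n + 1) = {w} := by
        ext x
        simp only [SimpleGraph.mem_neighborSet, SimpleGraph.sup_adj, SimpleGraph.edge_adj,
          Set.mem_singleton_iff]
        constructor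
        · rintro (hx | ⟨⟨hx, hx'⟩ | ⟨hx, hx'⟩, hx''⟩)
          · have : x ∈ G.neighborSet (n + 1) := hx
            rw [h0] at this; exact this.elim
          · exact hx'
          · omega
        · intro hx; subst hx; right; simp [h1]
      rw [this, h0]; simp [h1]
    · have : (G ⊔ SimpleGraph.edge (n + 1) w).neighborSet u = G.neighborSet u := by
        ext x
        simp only [SimpleGraph.mem_neighborSet, SimpleGraph.sup_adj, SimpleGraph.edge_adj]
        constructor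
        · rintro (hx | ⟨⟨hx, hx'⟩ | ⟨hx, hx'⟩, hx''⟩)
          · exact hx
          · exact absurd hx h2
          · exact absurd hx h1
        · intro hx; exact Or.inl hx
      rw [this]; simp [h1, h2]

lemma Good.deg_eq_zero {n : ℕ} {G : SimpleGraph ℕ} (h : Good n G) {v : ℕ} (hv : n < v) :
    deg G v = 0 := by
  rw [← h.R_eq]; exact deg_R_eq_zero G hv

lemma good_two : Good 2 (SimpleGraph.edge 1 2) := by
  have hd1 : deg (SimpleGraph.edge 1 2) 1 = 1 := by
    unfold deg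
    have : (SimpleGraph.edge 1 2).neighborSet 1 = {2} := by
      ext x
      rw [SimpleGraph.mem_neighborSet, SimpleGraph.edge_adj, Set.mem_singleton_iff]
      omega
    rw [this]; simp
  have hd2 : deg (SimpleGraph.edge 1 2) 2 = 1 := by
    unfold deg
    have : (SimpleGraph.edge 1 2).neighborSet 2 = {1} := by
      ext x
      rw [SimpleGraph.mem_neighborSet, SimpleGraph.edge_adj, Set.mem_singleton_iff]
      omega
    rw [this]; simp
  refine ⟨?_, ?_, ?_, ?_⟩
  · intro v w hvw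
    rw [SimpleGraph.edge_adj] at hvw
    omega
  · intro v h1 h2
    interval_cases v
    · rw [hd1]
    · rw [hd2]
  · intro v h1 h2; omega
  · have : Finset.Icc 1 2 = {1, 2} := by decide
    rw [this, Finset.sum_pair (by norm_num), hd1, hd2]

lemma Good.step {n : ℕ} {G : SimpleGraph ℕ} (h : Good n G) {w : ℕ} (hw1 : 1 ≤ w)
    (hwn : w ≤ n) : Good (n + 1) (G ⊔ SimpleGraph.edge (n + 1) w) := by
  refine ⟨?_, ?_, ?_, ?_⟩
  · intro a b hab
    rcases hab with hab | hab
    · have := h.supp _ _ hab; omega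
    · rw [SimpleGraph.edge_adj] at hab; omega
  · intro v h1 h2
    rw [deg_step h hw1 hwn]
    by_cases hv : v = n + 1
    · simp [hv]
    · have := h.degpos v h1 (by omega)
      omega
  · intro v h1 h2
    by_cases hv : v = n + 1
    · refine ⟨w, Or.inr ?_, ?_⟩
      · rw [SimpleGraph.edge_adj]; omega
      · rw [deg_step h hw1 hwn]
        have := h.degpos w hw1 hwn
        simp; omega
    · obtain ⟨u, hu1, hu2⟩ := h.par v h1 (by omega)
      refine ⟨u, Or.inl hu1, ?_⟩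
      rw [deg_step h hw1 hwn]; omega
  · rw [Finset.sum_Icc_succ_top (by omega)]
    have e1 : ∀ v ∈ Finset.Icc 1 n, deg (G ⊔ SimpleGraph.edge (n + 1) w) v
        = deg G v + (if v = w then 1 else 0) := by
      intro v hv
      rw [Finset.mem_Icc] at hv
      rw [deg_step h hw1 hwn, if_neg (show ¬ v = n + 1 by omega)]; simp
    rw [Finset.sum_congr rfl e1, Finset.sum_add_distrib, Finset.sum_ite_eq' ,
      if_pos (Finset.mem_Icc.2 ⟨hw1, hwn⟩), deg_step h hw1 hwn, if_neg (show ¬ n + 1 = w by omega),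
      if_pos rfl, h.deg_eq_zero (by omega)]
    have := h.sum
    omega

/-- The conditional probability that the new vertex is attached to `w`, given the tree `G`. -/
noncomputable def q (n : ℕ) (G : SimpleGraph ℕ) (w : ℕ) : ℝ :=
  open Classical in ∑ v ∈ Finset.Icc 1 n, if G.Adj v w then (n : ℝ)⁻¹ * (deg G v : ℝ)⁻¹ else 0

lemma q_nonneg (n : ℕ) (G : SimpleGraph ℕ) (w : ℕ) : 0 ≤ q n G w := by
  classical
  unfold q
  refine Finset.sum_nonneg fun v _ => ?_
  split_ifs <;> positivity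

lemma Good.deg_eq_card {n : ℕ} {G : SimpleGraph ℕ} (h : Good n G) (w : ℕ)
    [DecidablePred (fun v => G.Adj v w)] :
    deg G w = ((Finset.Icc 1 n).filter (fun v => G.Adj v w)).card := by
  unfold deg
  rw [← Set.ncard_coe_finset]
  congr 1
  ext x
  simp only [SimpleGraph.mem_neighborSet, Finset.coe_filter, Finset.mem_Icc, Set.mem_ofPred_eq]
  constructor
  · intro hx; exact ⟨h.supp' hx, hx.symm⟩
  · intro hx; exact hx.2.symm

lemma q_le {n : ℕ} {G : SimpleGraph ℕ} (h : Good n G) (w : ℕ) :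
    q n G w ≤ (deg G w : ℝ) / n := by
  classical
  unfold q
  rw [h.deg_eq_card w, ← Finset.sum_filter]
  calc ∑ v ∈ (Finset.Icc 1 n).filter (fun v => G.Adj v w), (n : ℝ)⁻¹ * (deg G v : ℝ)⁻¹
      ≤ ∑ v ∈ (Finset.Icc 1 n).filter (fun v => G.Adj v w), (n : ℝ)⁻¹ := by
        refine Finset.sum_le_sum fun v hv => ?_
        rw [Finset.mem_filter, Finset.mem_Icc] at hv
        have h1 : (1 : ℝ) ≤ deg G v := by exact_mod_cast h.degpos v hv.1.1 hv.1.2
        have h2 : (deg G v : ℝ)⁻¹ ≤ 1 := inv_le_one_of_one_le₀ h1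
        have h3 : (0 : ℝ) ≤ (n : ℝ)⁻¹ := by positivity
        nlinarith
    _ = _ := by
        rw [Finset.sum_const, nsmul_eq_mul]
        field_simp

/-- Number of vertices of degree at least two. -/
noncomputable def X (n : ℕ) (G : SimpleGraph ℕ) : ℕ :=
  ((Finset.Icc 1 n).filter (fun v => 2 ≤ deg G v)).card

/-- Number of vertices with label at least three and degree exactly two. -/
noncomputable def Y (n : ℕ) (G : SimpleGraph ℕ) : ℕ :=
  ((Finset.Icc 3 n).filter (fun v => deg G v = 2)).card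

lemma sum_q_leaf {n : ℕ} (hn : 2 ≤ n) {G : SimpleGraph ℕ} (h : Good n G) :
    ∑ w ∈ (Finset.Icc 1 n).filter (fun w => deg G w = 1), q n G w
      ≤ (2 + (X n G : ℝ) - (Y n G : ℝ) / 2) / n := by
  classical
  have hn0 : (0 : ℝ) < n := by exact_mod_cast (by omega : 0 < n)
  unfold q
  rw [Finset.sum_comm]
  -- the inner sum is `L v / (n * deg v)`
  have key : ∀ v ∈ Finset.Icc 1 n,
      (∑ w ∈ (Finset.Icc 1 n).filter (fun w => deg G w = 1),
        if G.Adj v w then (n : ℝ)⁻¹ * (deg G v : ℝ)⁻¹ else 0)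
      ≤ (n : ℝ)⁻¹ * ((if v ≤ 2 then 1 else 0) + (if 2 ≤ deg G v then 1 else 0)
          - (if 3 ≤ v ∧ deg G v = 2 then 1 / 2 else 0)) := by
    intro v hv
    rw [Finset.mem_Icc] at hv
    rw [← Finset.sum_filter, Finset.sum_const, nsmul_eq_mul, Finset.filter_filter]
    have hd1 : 1 ≤ deg G v := h.degpos v hv.1 hv.2
    have hd1' : (1 : ℝ) ≤ deg G v := by exact_mod_cast hd1
    set L := ((Finset.Icc 1 n).filter (fun w => deg G w = 1 ∧ G.Adj v w)).card with hL
    have hLle : L ≤ deg G v := by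
      rw [h.deg_eq_card v, hL]
      refine Finset.card_le_card ?_
      intro x hx
      rw [Finset.mem_filter] at hx ⊢
      exact ⟨hx.1, hx.2.2.symm⟩
    have hLR : (L : ℝ) ≤ deg G v := by exact_mod_cast hLle
    rw [mul_left_comm]
    refine mul_le_mul_of_nonneg_left ?_ (by positivity)
    rw [← div_eq_mul_inv]
    by_cases hv2 : v ≤ 2
    · have h3 : ¬ (3 ≤ v ∧ deg G v = 2) := by omega
      rw [if_pos hv2, if_neg h3]
      have : (L : ℝ) / deg G v ≤ 1 := by
        rw [div_le_one (by linarith)]; exact hLR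
      have h4 : (0 : ℝ) ≤ (if 2 ≤ deg G v then 1 else 0) := by split_ifs <;> norm_num
      linarith
    · -- v ≥ 3
      rw [if_neg hv2]
      obtain ⟨u, hu1, hu2⟩ := h.par v (by omega) hv.2
      have hLlt : L < deg G v := by
        rw [h.deg_eq_card v, hL]
        refine Finset.card_lt_card ?_
        rw [Finset.ssubset_iff_of_subset]
        · refine ⟨u, ?_, ?_⟩
          · rw [Finset.mem_filter, Finset.mem_Icc]
            exact ⟨h.supp' hu1, hu1.symm⟩
          · rw [Finset.mem_filter]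
            rintro ⟨_, h5, _⟩
            omega
        · intro x hx
          rw [Finset.mem_filter] at hx ⊢
          exact ⟨hx.1, hx.2.2.symm⟩
      by_cases h6 : deg G v = 1
      · have : L = 0 := by omega
        rw [this]
        have h7 : ¬ (3 ≤ v ∧ deg G v = 2) := by omega
        have h8 : ¬ (2 ≤ deg G v) := by omega
        rw [if_neg h7, if_neg h8]; simp
      · by_cases h9 : deg G v = 2
        · have h7 : (3 ≤ v ∧ deg G v = 2) := by omega
          have h8 : (2 ≤ deg G v) := by omega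
          rw [if_pos h7, if_pos h8, h9]
          have : (L : ℝ) ≤ 1 := by
            have : L ≤ 1 := by omega
            exact_mod_cast this
          push_cast
          linarith
        · have h7 : ¬ (3 ≤ v ∧ deg G v = 2) := by omega
          have h8 : (2 ≤ deg G v) := by omega
          rw [if_neg h7, if_pos h8]
          have : (L : ℝ) / deg G v ≤ 1 := by
            rw [div_le_one (by linarith)]; exact hLR
          linarith
  refine (Finset.sum_le_sum key).trans ?_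
  rw [← Finset.mul_sum, Finset.sum_sub_distrib, Finset.sum_add_distrib]
  have e1 : (∑ v ∈ Finset.Icc 1 n, if v ≤ 2 then (1 : ℝ) else 0) = 2 := by
    rw [← Finset.sum_filter]
    have : (Finset.Icc 1 n).filter (fun v => v ≤ 2) = {1, 2} := by
      ext x
      simp only [Finset.mem_filter, Finset.mem_Icc, Finset.mem_insert, Finset.mem_singleton]
      omega
    rw [this, Finset.sum_pair (by norm_num)]; norm_num
  have e2 : (∑ v ∈ Finset.Icc 1 n, if 2 ≤ deg G v then (1 : ℝ) else 0) = X n G := by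
    rw [← Finset.sum_filter]; simp [X]
  have e3 : (∑ v ∈ Finset.Icc 1 n, if 3 ≤ v ∧ deg G v = 2 then (1 / 2 : ℝ) else 0)
      = (Y n G : ℝ) / 2 := by
    rw [← Finset.sum_filter, Finset.sum_const, nsmul_eq_mul]
    have : (Finset.Icc 1 n).filter (fun v => 3 ≤ v ∧ deg G v = 2)
        = (Finset.Icc 3 n).filter (fun v => deg G v = 2) := by
      ext x
      simp only [Finset.mem_filter, Finset.mem_Icc]
      constructor
      · rintro ⟨⟨h1, h2⟩, h3, h4⟩; exact ⟨⟨h3, h2⟩, h4⟩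
      · rintro ⟨⟨h1, h2⟩, h4⟩; exact ⟨⟨by omega, h2⟩, h1, h4⟩
    rw [this]
    unfold Y
    ring
  rw [e1, e2, e3]
  apply le_of_eq
  field_simp

lemma sum_q {n : ℕ} (hn : 2 ≤ n) {G : SimpleGraph ℕ} (h : Good n G) :
    ∑ w ∈ Finset.Icc 1 n, q n G w = 1 := by
  classical
  have hn0 : (0 : ℝ) < n := by exact_mod_cast (by omega : 0 < n)
  unfold q
  rw [Finset.sum_comm]
  have key : ∀ v ∈ Finset.Icc 1 n, (∑ w ∈ Finset.Icc 1 n,
      if G.Adj v w then (n : ℝ)⁻¹ * (deg G v : ℝ)⁻¹ else 0) = (n : ℝ)⁻¹ := by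
    intro v hv
    rw [Finset.mem_Icc] at hv
    have hd1' : (1 : ℝ) ≤ deg G v := by exact_mod_cast h.degpos v hv.1 hv.2
    rw [← Finset.sum_filter, Finset.sum_const, nsmul_eq_mul]
    have : ((Finset.Icc 1 n).filter (fun w => G.Adj v w)).card = deg G v := by
      rw [h.deg_eq_card v]
      congr 1
      ext x
      simp only [Finset.mem_filter, SimpleGraph.adj_comm]
    rw [this]
    field_simp
  rw [Finset.sum_congr rfl key, Finset.sum_const, nsmul_eq_mul, Nat.card_Icc, Nat.add_sub_cancel]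
  field_simp

lemma sum_step {n : ℕ} {G : SimpleGraph ℕ} (h : Good n G) {w : ℕ} (hw1 : 1 ≤ w) (hwn : w ≤ n)
    (φ : ℕ → ℕ → ℝ) :
    ∑ v ∈ Finset.Icc 1 (n + 1), φ v (deg (G ⊔ SimpleGraph.edge (n + 1) w) v)
      = ∑ v ∈ Finset.Icc 1 n, φ v (deg G v) + (φ w (deg G w + 1) - φ w (deg G w))
        + φ (n + 1) 1 := by
  rw [Finset.sum_Icc_succ_top (by omega)]
  have e1 : ∀ v ∈ Finset.Icc 1 n, φ v (deg (G ⊔ SimpleGraph.edge (n + 1) w) v)
      = φ v (deg G v) + (if v = w then (φ w (deg G w + 1) - φ w (deg G w)) else 0) := by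
    intro v hv
    rw [Finset.mem_Icc] at hv
    rw [deg_step h hw1 hwn, if_neg (show ¬ v = n + 1 by omega), add_zero]
    by_cases hvw : v = w
    · subst hvw; simp
    · simp [hvw]
  have e2 : deg (G ⊔ SimpleGraph.edge (n + 1) w) (n + 1) = 1 := by
    rw [deg_step h hw1 hwn, if_neg (show ¬ n + 1 = w by omega), if_pos rfl,
      h.deg_eq_zero (show n < n + 1 by omega)]
  rw [Finset.sum_congr rfl e1, Finset.sum_add_distrib, Finset.sum_ite_eq',
    if_pos (Finset.mem_Icc.2 ⟨hw1, hwn⟩), e2]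

/-- The Lyapunov function. -/
noncomputable def Φ (n : ℕ) (G : SimpleGraph ℕ) : ℝ := (X n G : ℝ) - (Y n G : ℝ) / 8

lemma X_eq (n : ℕ) (G : SimpleGraph ℕ) :
    (X n G : ℝ) = ∑ v ∈ Finset.Icc 1 n, (if 2 ≤ deg G v then (1 : ℝ) else 0) := by
  rw [← Finset.sum_filter]; simp [X]

lemma Y_eq (n : ℕ) (G : SimpleGraph ℕ) :
    (Y n G : ℝ) = ∑ v ∈ Finset.Icc 1 n, (if 3 ≤ v ∧ deg G v = 2 then (1 : ℝ) else 0) := by
  rw [← Finset.sum_filter, Finset.sum_const, nsmul_eq_mul, mul_one]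
  have : (Finset.Icc 1 n).filter (fun v => 3 ≤ v ∧ deg G v = 2)
      = (Finset.Icc 3 n).filter (fun v => deg G v = 2) := by
    ext x
    simp only [Finset.mem_filter, Finset.mem_Icc]
    constructor
    · rintro ⟨⟨h1, h2⟩, h3, h4⟩; exact ⟨⟨h3, h2⟩, h4⟩
    · rintro ⟨⟨h1, h2⟩, h4⟩; exact ⟨⟨by omega, h2⟩, h1, h4⟩
  rw [this]
  rfl

lemma Y_le_X (n : ℕ) (G : SimpleGraph ℕ) : (Y n G : ℝ) ≤ X n G := by
  rw [X_eq, Y_eq]
  refine Finset.sum_le_sum fun v _ => ?_
  by_cases h : 3 ≤ v ∧ deg G v = 2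
  · rw [if_pos h, if_pos (by omega)]
  · rw [if_neg h]; split_ifs <;> norm_num

lemma X_le (n : ℕ) (G : SimpleGraph ℕ) : (X n G : ℝ) ≤ n := by
  have : X n G ≤ n := by
    unfold X
    refine (Finset.card_filter_le _ _).trans ?_
    simp
  exact_mod_cast this

lemma X_le_Φ (n : ℕ) (G : SimpleGraph ℕ) : (X n G : ℝ) ≤ 8 / 7 * Φ n G := by
  have := Y_le_X n G
  unfold Φ
  linarith

lemma Φ_nonneg (n : ℕ) (G : SimpleGraph ℕ) : 0 ≤ Φ n G := by
  have := X_le_Φ n G
  have : (0 : ℝ) ≤ X n G := by positivity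
  linarith

lemma X_step {n : ℕ} {G : SimpleGraph ℕ} (h : Good n G) {w : ℕ} (hw1 : 1 ≤ w) (hwn : w ≤ n) :
    (X (n + 1) (G ⊔ SimpleGraph.edge (n + 1) w) : ℝ)
      = X n G + (if deg G w = 1 then 1 else 0) := by
  rw [X_eq, X_eq, sum_step h hw1 hwn (fun _ d => if 2 ≤ d then (1 : ℝ) else 0)]
  have := h.degpos w hw1 hwn
  by_cases h1 : deg G w = 1
  · simp [h1]
  · have h2 : 2 ≤ deg G w := by omega
    have h3 : 2 ≤ deg G w + 1 := by omega
    simp only [if_pos h2, if_pos h3, if_neg h1]; norm_num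

lemma Y_step {n : ℕ} {G : SimpleGraph ℕ} (h : Good n G) {w : ℕ} (hw1 : 1 ≤ w)
    (hwn : w ≤ n) :
    (Y (n + 1) (G ⊔ SimpleGraph.edge (n + 1) w) : ℝ)
      = Y n G + (if 3 ≤ w ∧ deg G w = 1 then 1 else 0)
        - (if 3 ≤ w ∧ deg G w = 2 then 1 else 0) := by
  rw [Y_eq, Y_eq, sum_step h hw1 hwn (fun v d => if 3 ≤ v ∧ d = 2 then (1 : ℝ) else 0)]
  have e : (fun v d => if 3 ≤ v ∧ d = 2 then (1 : ℝ) else 0) (n + 1) 1 = 0 := by simp
  have e2 : (3 ≤ w ∧ deg G w + 1 = 2) ↔ (3 ≤ w ∧ deg G w = 1) := by omega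
  simp only [e2]
  simp
  ring

/-- Mass of the vertices that have degree at least two in `G` but not in the restriction to
the first `m` vertices. -/
noncomputable def M (m n : ℕ) (G : SimpleGraph ℕ) : ℝ :=
  ∑ v ∈ Finset.Icc 1 n, if 2 ≤ deg G v ∧ deg (R m G) v ≤ 1 then (deg G v : ℝ) else 0

lemma M_nonneg (m n : ℕ) (G : SimpleGraph ℕ) : 0 ≤ M m n G := by
  unfold M
  refine Finset.sum_nonneg fun v _ => ?_
  split_ifs <;> positivity

lemma M_self (m : ℕ) {G : SimpleGraph ℕ} (h : Good m G) : M m m G = 0 := by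
  unfold M
  rw [h.R_eq]
  refine Finset.sum_eq_zero fun v _ => ?_
  rw [if_neg (by omega)]

lemma M_step {m n : ℕ} (hmn : m ≤ n) {G : SimpleGraph ℕ} (h : Good n G) {w : ℕ} (hw1 : 1 ≤ w)
    (hwn : w ≤ n) :
    M m (n + 1) (G ⊔ SimpleGraph.edge (n + 1) w)
      = M m n G + (if 2 ≤ deg G w ∧ deg (R m G) w ≤ 1 then 1 else 0)
        + (if deg G w = 1 then 2 else 0) := by
  unfold M
  rw [R_sup_edge hmn, sum_step h hw1 hwn
    (fun v d => if 2 ≤ d ∧ deg (R m G) v ≤ 1 then (d : ℝ) else 0)]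
  have hR : deg (R m G) w ≤ deg G w :=
    deg_le_of_le (G := R m G) (fun _ _ hab => hab.1) w (h.nbr_finite w)
  have h0 := h.degpos w hw1 hwn
  by_cases h1 : deg G w = 1
  · have h2 : 2 ≤ deg G w + 1 ∧ deg (R m G) w ≤ 1 := by omega
    have h3 : ¬ (2 ≤ deg G w ∧ deg (R m G) w ≤ 1) := by omega
    simp only [if_pos h2, if_neg h3, if_pos h1]
    rw [h1]; norm_num
  · by_cases h4 : deg (R m G) w ≤ 1
    · have h2 : 2 ≤ deg G w + 1 ∧ deg (R m G) w ≤ 1 := by omega
      have h3 : (2 ≤ deg G w ∧ deg (R m G) w ≤ 1) := by omega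
      simp only [if_pos h2, if_pos h3, if_neg h1]
      push_cast; norm_num
    · have h2 : ¬ (2 ≤ deg G w + 1 ∧ deg (R m G) w ≤ 1) := by omega
      have h3 : ¬ (2 ≤ deg G w ∧ deg (R m G) w ≤ 1) := by omega
      simp only [if_neg h2, if_neg h3, if_neg h1]
      norm_num

/-- One-step expectation. -/
noncomputable def stepE (n : ℕ) (f : SimpleGraph ℕ → ℝ) (G : SimpleGraph ℕ) : ℝ :=
  ∑ w ∈ Finset.Icc 1 n, q n G w * f (G ⊔ SimpleGraph.edge (n + 1) w)

lemma stepE_Φ_le {n : ℕ} (hn : 2 ≤ n) {G : SimpleGraph ℕ} (h : Good n G) :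
    stepE n (Φ (n + 1)) G ≤ Φ n G + (7 / 8 * Φ n G + 2) / n := by
  classical
  have hn0 : (0 : ℝ) < n := by exact_mod_cast (by omega : 0 < n)
  have e1 : ∀ w ∈ Finset.Icc 1 n, q n G w * Φ (n + 1) (G ⊔ SimpleGraph.edge (n + 1) w)
      ≤ q n G w * Φ n G + 7 / 8 * (if deg G w = 1 then q n G w else 0)
        + (if w ≤ 2 then 1 / 8 / (n : ℝ) else 0)
        + (if 3 ≤ w ∧ deg G w = 2 then 2 / 8 / (n : ℝ) else 0) := by
    intro w hw
    rw [Finset.mem_Icc] at hw
    have hq := q_nonneg n G w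
    have hq2 := q_le h w
    have hc : (0 : ℝ) ≤ 1 / 8 / (n : ℝ) := by positivity
    have hc2 : (0 : ℝ) ≤ 2 / 8 / (n : ℝ) := by positivity
    unfold Φ
    rw [X_step h hw.1 hw.2, Y_step h hw.1 hw.2]
    by_cases h1 : deg G w = 1
    · have h2 : ¬ (3 ≤ w ∧ deg G w = 2) := by omega
      rw [if_pos h1, if_neg h2, if_pos h1, if_neg h2]
      by_cases h3 : w ≤ 2
      · have h4 : ¬ (3 ≤ w ∧ deg G w = 1) := by omega
        rw [if_neg h4, if_pos h3]
        rw [h1] at hq2
        have : 1 / 8 / (n : ℝ) = 1 / 8 * (((1 : ℕ) : ℝ) / n) := by push_cast; ring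
        nlinarith
      · have h4 : (3 ≤ w ∧ deg G w = 1) := by omega
        rw [if_pos h4, if_neg h3]
        nlinarith
    · have h4 : ¬ (3 ≤ w ∧ deg G w = 1) := by omega
      rw [if_neg h1, if_neg h4, if_neg h1]
      by_cases h5 : 3 ≤ w ∧ deg G w = 2
      · rw [if_pos h5, if_neg (show ¬ w ≤ 2 by omega), if_pos h5]
        rw [h5.2] at hq2
        have : 2 / 8 / (n : ℝ) = 1 / 8 * (((2 : ℕ) : ℝ) / n) := by push_cast; ring
        nlinarith
      · rw [if_neg h5, if_neg h5]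
        split_ifs <;> nlinarith
  unfold stepE
  refine (Finset.sum_le_sum e1).trans ?_
  rw [Finset.sum_add_distrib, Finset.sum_add_distrib, Finset.sum_add_distrib, ← Finset.sum_mul,
    sum_q hn h, ← Finset.mul_sum, ← Finset.sum_filter]
  have e2 := sum_q_leaf hn h
  have e3 : (∑ w ∈ Finset.Icc 1 n, if w ≤ 2 then 1 / 8 / (n : ℝ) else 0) = 2 / 8 / (n : ℝ) := by
    rw [← Finset.sum_filter]
    have : (Finset.Icc 1 n).filter (fun v => v ≤ 2) = {1, 2} := by
      ext x
      simp only [Finset.mem_filter, Finset.mem_Icc, Finset.mem_insert, Finset.mem_singleton]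
      omega
    rw [this, Finset.sum_pair (by norm_num)]; ring
  have e4 : (∑ w ∈ Finset.Icc 1 n, if 3 ≤ w ∧ deg G w = 2 then 2 / 8 / (n : ℝ) else 0)
      = 2 / 8 / (n : ℝ) * Y n G := by
    rw [Y_eq, Finset.mul_sum]
    refine Finset.sum_congr rfl fun w _ => ?_
    split_ifs <;> simp
  rw [e3, e4]
  have hY : (0 : ℝ) ≤ Y n G := by positivity
  have e5 : 7 / 8 * ((2 + (X n G : ℝ) - (Y n G : ℝ) / 2) / n) + 2 / 8 / (n : ℝ)
      + 2 / 8 / (n : ℝ) * Y n G ≤ (7 / 8 * Φ n G + 2) / n := by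
    unfold Φ
    rw [← sub_nonneg]
    have : (7 / 8 * ((X n G : ℝ) - (Y n G : ℝ) / 8) + 2) / n
        - (7 / 8 * ((2 + (X n G : ℝ) - (Y n G : ℝ) / 2) / n) + 2 / 8 / (n : ℝ)
      + 2 / 8 / (n : ℝ) * Y n G) = (5 / 64 * Y n G) / n := by
      field_simp
      ring
    rw [this]
    positivity
  linarith

lemma stepE_M_le {m n : ℕ} (hn : 2 ≤ n) (hmn : m ≤ n) {G : SimpleGraph ℕ} (h : Good n G) :
    stepE n (M m (n + 1)) G ≤ M m n G + (M m n G + 2 * (2 + X n G)) / n := by
  classical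
  have hn0 : (0 : ℝ) < n := by exact_mod_cast (by omega : 0 < n)
  have e1 : ∀ w ∈ Finset.Icc 1 n, q n G w * M m (n + 1) (G ⊔ SimpleGraph.edge (n + 1) w)
      ≤ q n G w * M m n G
        + (if 2 ≤ deg G w ∧ deg (R m G) w ≤ 1 then (deg G w : ℝ) else 0) / n
        + 2 * (if deg G w = 1 then q n G w else 0) := by
    intro w hw
    rw [Finset.mem_Icc] at hw
    have hq := q_nonneg n G w
    have hq2 := q_le h w
    rw [M_step hmn h hw.1 hw.2]
    split_ifs with h1 h2 h3
    · omega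
    · have : q n G w * (M m n G + 1 + 0) = q n G w * M m n G + q n G w := by ring
      rw [this]; linarith
    · rw [zero_div]; nlinarith
    · rw [zero_div]; nlinarith
  unfold stepE
  refine (Finset.sum_le_sum e1).trans ?_
  rw [Finset.sum_add_distrib, Finset.sum_add_distrib, ← Finset.sum_mul, sum_q hn h,
    ← Finset.mul_sum, ← Finset.sum_filter, ← Finset.sum_div]
  have e2 := sum_q_leaf hn h
  have hY : (0 : ℝ) ≤ Y n G := by positivity
  have e3 : (2 + (X n G : ℝ) - (Y n G : ℝ) / 2) / n ≤ (2 + X n G) / n := by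
    gcongr; linarith
  have e4 : (M m n G + 2 * (2 + X n G)) / n = M m n G / n + 2 * ((2 + X n G) / n) := by ring
  rw [e4]
  have e5 : (∑ w ∈ Finset.Icc 1 n, if 2 ≤ deg G w ∧ deg (R m G) w ≤ 1 then (deg G w : ℝ) else 0)
      = M m n G := rfl
  rw [e5]
  linarith

lemma stepE_deg_le {n : ℕ} (hn : 2 ≤ n) (v : ℕ) {G : SimpleGraph ℕ} (h : Good n G)
    (hv1 : 1 ≤ v) (hvn : v ≤ n) :
    stepE n (fun G => (deg G v : ℝ)) G ≤ deg G v + (deg G v : ℝ) / n := by
  have e1 : ∀ w ∈ Finset.Icc 1 n,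
      q n G w * (deg (G ⊔ SimpleGraph.edge (n + 1) w) v : ℝ)
      = q n G w * deg G v + (if v = w then q n G v else 0) := by
    intro w hw
    rw [Finset.mem_Icc] at hw
    rw [deg_step h hw.1 hw.2, if_neg (show ¬ v = n + 1 by omega)]
    by_cases hvw : v = w
    · subst hvw; simp; ring
    · simp [hvw]
  unfold stepE
  rw [Finset.sum_congr rfl e1, Finset.sum_add_distrib, ← Finset.sum_mul, sum_q hn h,
    Finset.sum_ite_eq, if_pos (Finset.mem_Icc.2 ⟨hv1, hvn⟩), one_mul]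
  have := q_le h v
  linarith

lemma mass_lower {m n : ℕ} (hmn : m ≤ n) {G : SimpleGraph ℕ} (h : Good n G) :
    (n : ℝ) - 2 ≤ M m n G + ∑ v ∈ Finset.Icc 1 m, (deg G v : ℝ) := by
  have h1 : ∑ v ∈ Finset.Icc 1 n, (deg G v : ℝ) + 2 = 2 * n := by
    have := h.sum
    exact_mod_cast this
  have h2 : ∀ v ∈ Finset.Icc 1 n, (deg G v : ℝ) ≤
      (if 2 ≤ deg G v ∧ deg (R m G) v ≤ 1 then (deg G v : ℝ) else 0)
        + (if v ≤ m then (deg G v : ℝ) else 0) + 1 := by
    intro v hv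
    rw [Finset.mem_Icc] at hv
    have h0 : (0 : ℝ) ≤ deg G v := by positivity
    by_cases h3 : v ≤ m
    · rw [if_pos h3]
      split_ifs <;> linarith
    · rw [if_neg h3]
      have h4 : deg (R m G) v = 0 := deg_R_eq_zero G (by omega)
      by_cases h5 : 2 ≤ deg G v
      · rw [if_pos (by omega)]; linarith
      · rw [if_neg (by omega)]
        have : deg G v ≤ 1 := by omega
        have : (deg G v : ℝ) ≤ 1 := by exact_mod_cast this
        linarith
  have h3 := Finset.sum_le_sum h2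
  rw [Finset.sum_add_distrib, Finset.sum_add_distrib, ← Finset.sum_filter (fun v => v ≤ m)] at h3
  have h4 : (Finset.Icc 1 n).filter (fun v => v ≤ m) = Finset.Icc 1 m := by
    ext x
    simp only [Finset.mem_filter, Finset.mem_Icc]
    omega
  rw [h4] at h3
  simp only [Finset.sum_const, Nat.card_Icc, Nat.add_sub_cancel, nsmul_eq_mul, mul_one] at h3
  have e5 : (∑ w ∈ Finset.Icc 1 n, if 2 ≤ deg G w ∧ deg (R m G) w ≤ 1 then (deg G w : ℝ) else 0)
      = M m n G := rfl
  rw [e5] at h3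
  linarith

lemma mass_upper {m n : ℕ} (hmn : m ≤ n) {G : SimpleGraph ℕ} (h : Good n G) :
    ∑ v ∈ Finset.Icc 1 m, (deg G v : ℝ) ≤ n + m := by
  have h1 : ∑ v ∈ Finset.Icc 1 n, (deg G v : ℝ) + 2 = 2 * n := by
    have := h.sum
    exact_mod_cast this
  -- the vertices outside `Icc 1 m` have degree at least one
  have h2 : ∀ v ∈ Finset.Icc 1 n,
      (if v ≤ m then (deg G v : ℝ) else 0) + 1 ≤
      (deg G v : ℝ) + (if v ≤ m then (1 : ℝ) else 0) := by
    intro v hv
    rw [Finset.mem_Icc] at hv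
    have h3 : (1 : ℝ) ≤ deg G v := by exact_mod_cast h.degpos v hv.1 hv.2
    split_ifs <;> linarith
  have h3 := Finset.sum_le_sum h2
  rw [Finset.sum_add_distrib, Finset.sum_add_distrib, ← Finset.sum_filter,
    ← Finset.sum_filter] at h3
  have h4 : (Finset.Icc 1 n).filter (fun v => v ≤ m) = Finset.Icc 1 m := by
    ext x
    simp only [Finset.mem_filter, Finset.mem_Icc]
    omega
  rw [h4] at h3
  simp only [Finset.sum_const, Nat.card_Icc, Nat.add_sub_cancel, nsmul_eq_mul, mul_one] at h3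
  linarith


/-! ### Probabilistic part -/

/-- Graphs supported on `{0, …, n}`. -/
def GG (n : ℕ) : Set (SimpleGraph ℕ) := {G | ∀ a b, G.Adj a b → a ≤ n ∧ b ≤ n}

lemma GG_finite (n : ℕ) : (GG n).Finite := by
  have h1 : (Set.Iic n ×ˢ Set.Iic n : Set (ℕ × ℕ)).Finite :=
    (Set.finite_Iic n).prod (Set.finite_Iic n)
  have h2 := (h1.image (fun p : ℕ × ℕ => s(p.1, p.2))).finite_subsets
  refine Set.Finite.of_injOn (f := fun G : SimpleGraph ℕ => G.edgeSet) ?_ ?_ h2
  · intro G hG e he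
    induction e using Sym2.ind with
    | _ a b =>
      have := hG a b he
      exact ⟨(a, b), ⟨this.1, this.2⟩, rfl⟩
  · intro G _ H _ hGH
    exact SimpleGraph.edgeSet_injective hGH

lemma R_mem_GG (n : ℕ) (G : SimpleGraph ℕ) : R n G ∈ GG n := fun _ _ h => h.2

section prob

set_option linter.unusedSectionVars false

variable {Ω : Type*} [mΩ : MeasurableSpace Ω] {μ : Measure Ω} [IsProbabilityMeasure μ]
  {T : ℕ → Ω → SimpleGraph ℕ} {V W : ℕ → Ω → ℕ}

namespace IsRandomFriendTree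

lemma measurable_adj (h : IsRandomFriendTree μ T V W) {n : ℕ} (hn : 2 ≤ n) (a b : ℕ) :
    MeasurableSet {ω | (T n ω).Adj a b} := by
  induction n, hn using Nat.le_induction with
  | base =>
    simp only [h.T_two]
    exact MeasurableSet.const _
  | succ n hn ih =>
    have e : {ω | (T (n + 1) ω).Adj a b} = {ω | (T n ω).Adj a b} ∪
        ({ω | ((a = n + 1 ∧ W n ω = b) ∨ (W n ω = a ∧ b = n + 1)) ∧ a ≠ b}) := by
      ext ω
      rw [Set.mem_ofPred_eq, h.T_succ n hn, SimpleGraph.sup_adj, SimpleGraph.edge_adj]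
      constructor
      · rintro (h1 | h1)
        · exact Or.inl h1
        · right
          refine ⟨?_, h1.2⟩
          rcases h1.1 with h2 | h2
          · exact Or.inl ⟨h2.1, h2.2.symm⟩
          · exact Or.inr ⟨h2.1.symm, h2.2⟩
      · rintro (h1 | h1)
        · exact Or.inl h1
        · right
          refine ⟨?_, h1.2⟩
          rcases h1.1 with h2 | h2
          · exact Or.inl ⟨h2.1, h2.2.symm⟩
          · exact Or.inr ⟨h2.1.symm, h2.2⟩
    rw [e]
    refine ih.union ?_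
    have hb : MeasurableSet {ω | W n ω = b} := h.measurable_W n hn (measurableSet_singleton b)
    have ha : MeasurableSet {ω | W n ω = a} := h.measurable_W n hn (measurableSet_singleton a)
    exact (((MeasurableSet.const _).inter hb).union (ha.inter (MeasurableSet.const _))).inter
      (MeasurableSet.const _)

lemma measurable_eq (h : IsRandomFriendTree μ T V W) {n : ℕ} (hn : 2 ≤ n) (G : SimpleGraph ℕ) :
    MeasurableSet {ω | T n ω = G} := by
  have e : {ω | T n ω = G} = ⋂ a : ℕ, ⋂ b : ℕ, {ω | (T n ω).Adj a b ↔ G.Adj a b} := by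
    ext ω
    simp only [Set.mem_ofPred_eq, Set.mem_iInter]
    constructor
    · intro h1 a b; rw [h1]
    · intro h1; ext a b; exact h1 a b
  rw [e]
  refine MeasurableSet.iInter fun a => MeasurableSet.iInter fun b => ?_
  by_cases h1 : G.Adj a b
  · simp only [h1, iff_true]; exact h.measurable_adj hn a b
  · simp only [h1, iff_false]; exact (h.measurable_adj hn a b).compl

lemma measurable_R_eq (h : IsRandomFriendTree μ T V W) {n : ℕ} (hn : 2 ≤ n) (G : SimpleGraph ℕ) :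
    MeasurableSet {ω | R n (T n ω) = G} := by
  have e : {ω | R n (T n ω) = G}
      = ⋂ a : ℕ, ⋂ b : ℕ, {ω | ((T n ω).Adj a b ∧ a ≤ n ∧ b ≤ n) ↔ G.Adj a b} := by
    ext ω
    simp only [Set.mem_ofPred_eq, Set.mem_iInter]
    constructor
    · intro h1 a b; rw [← h1]; rfl
    · intro h1; ext a b; exact h1 a b
  rw [e]
  refine MeasurableSet.iInter fun a => MeasurableSet.iInter fun b => ?_
  by_cases h1 : G.Adj a b
  · simp only [h1, iff_true]
    exact (h.measurable_adj hn a b).inter (MeasurableSet.const _)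
  · simp only [h1, iff_false]
    exact ((h.measurable_adj hn a b).inter (MeasurableSet.const _)).compl

lemma measurable_R (h : IsRandomFriendTree μ T V W) {n : ℕ} (hn : 2 ≤ n) :
    Measurable[mΩ, ⊤] (fun ω => R n (T n ω)) := by
  intro s _
  have e : (fun ω => R n (T n ω)) ⁻¹' s = ⋃ G ∈ (GG n ∩ s), {ω | R n (T n ω) = G} := by
    ext ω
    simp only [Set.mem_preimage, Set.mem_iUnion, Set.mem_ofPred_eq, exists_prop,
      exists_eq_right', Set.mem_inter_iff]
    exact ⟨fun h1 => ⟨R_mem_GG _ _, h1⟩, fun h1 => h1.2⟩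
  rw [e]
  exact Set.Finite.measurableSet_biUnion ((GG_finite n).inter_of_left s)
    fun G _ => h.measurable_R_eq hn G

lemma measurable_comp (h : IsRandomFriendTree μ T V W) {n : ℕ} (hn : 2 ≤ n)
    {β : Type*} [MeasurableSpace β] (f : SimpleGraph ℕ → β) :
    Measurable (fun ω => f (R n (T n ω))) :=
  (measurable_from_top (f := f)).comp (h.measurable_R hn)

lemma exists_bound (n : ℕ) (f : SimpleGraph ℕ → ℝ) : ∃ C, ∀ G, |f (R n G)| ≤ C := by
  refine ⟨∑ G ∈ (GG_finite n).toFinset, |f G|, fun G => ?_⟩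
  refine Finset.single_le_sum (f := fun G => |f G|) (fun _ _ => abs_nonneg _) ?_
  rw [Set.Finite.mem_toFinset]
  exact R_mem_GG n G

lemma integrable_comp (h : IsRandomFriendTree μ T V W) {n : ℕ} (hn : 2 ≤ n)
    (f : SimpleGraph ℕ → ℝ) : Integrable (fun ω => f (R n (T n ω))) μ := by
  obtain ⟨C, hC⟩ := exists_bound n f
  exact Integrable.of_bound (h.measurable_comp hn f).aestronglyMeasurable C
    (Eventually.of_forall fun ω => by rw [Real.norm_eq_abs]; exact hC _)

lemma R_T (h : IsRandomFriendTree μ T V W) {m n : ℕ} (hm : 2 ≤ m) (hmn : m ≤ n) (ω : Ω) :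
    R m (T n ω) = R m (T m ω) := by
  induction n, hmn using Nat.le_induction with
  | base => rfl
  | succ n hn ih => rw [h.T_succ n (hm.trans hn), R_sup_edge hn, ih]

lemma law_W (h : IsRandomFriendTree μ T V W) {n : ℕ} (hn : 2 ≤ n) {G : SimpleGraph ℕ}
    (hG : Good n G) (w : ℕ) :
    μ {ω | T n ω = G ∧ (1 ≤ V n ω ∧ V n ω ≤ n ∧ G.Adj (V n ω) (W n ω)) ∧ W n ω = w}
      = μ {ω | T n ω = G} * ENNReal.ofReal (q n G w) := by
  classical
  have hn0 : (0 : ℝ) < n := by exact_mod_cast (by omega : 0 < n)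
  have e1 : {ω | T n ω = G ∧ (1 ≤ V n ω ∧ V n ω ≤ n ∧ G.Adj (V n ω) (W n ω)) ∧ W n ω = w}
      = ⋃ v ∈ (Finset.Icc 1 n).filter (fun v => G.Adj v w),
        {ω | T n ω = G ∧ V n ω = v ∧ W n ω = w} := by
    ext ω
    simp only [Set.mem_iUnion, Set.mem_ofPred_eq, Finset.mem_filter, Finset.mem_Icc, exists_prop]
    constructor
    · rintro ⟨h1, ⟨h2, h3, h4⟩, h5⟩
      subst h5
      exact ⟨V n ω, ⟨⟨h2, h3⟩, h4⟩, h1, rfl, rfl⟩
    · rintro ⟨v, ⟨⟨h2, h3⟩, h4⟩, h1, h5, h6⟩
      subst h5; subst h6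
      exact ⟨h1, ⟨h2, h3, h4⟩, rfl⟩
  rw [e1, measure_biUnion_finset]
  · have e2 : ∀ v ∈ (Finset.Icc 1 n).filter (fun v => G.Adj v w),
        μ {ω | T n ω = G ∧ V n ω = v ∧ W n ω = w}
        = μ {ω | T n ω = G} * ENNReal.ofReal ((n : ℝ)⁻¹ * (deg G v : ℝ)⁻¹) := by
      intro v hv
      rw [Finset.mem_filter, Finset.mem_Icc] at hv
      rw [h.law n hn G v w hv.1.1 hv.1.2 hv.2]
      congr 1
      have h1 : (0 : ℝ) < deg G v := by exact_mod_cast hG.degpos v hv.1.1 hv.1.2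
      rw [ENNReal.ofReal_mul (by positivity), ENNReal.ofReal_inv_of_pos hn0,
        ENNReal.ofReal_inv_of_pos h1, ENNReal.ofReal_natCast, ENNReal.ofReal_natCast]
    rw [Finset.sum_congr rfl e2, ← Finset.mul_sum, ← ENNReal.ofReal_sum_of_nonneg]
    · congr 2
      rw [Finset.sum_filter]
      rfl
    · intro v _; positivity
  · intro a _ b _ hab
    refine Set.disjoint_left.2 ?_
    rintro ω ⟨_, h1, _⟩ ⟨_, h2, _⟩
    exact hab (h1.symm.trans h2)
  · intro v _
    exact (h.measurable_eq hn G).inter ((h.measurable_V n hn (measurableSet_singleton v)).inter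
      (h.measurable_W n hn (measurableSet_singleton w)))

lemma measurable_good (h : IsRandomFriendTree μ T V W) {n : ℕ} (hn : 2 ≤ n)
    (G : SimpleGraph ℕ) :
    MeasurableSet {ω | T n ω = G ∧ (1 ≤ V n ω ∧ V n ω ≤ n ∧ G.Adj (V n ω) (W n ω))} := by
  have hV := h.measurable_V n hn
  have hW := h.measurable_W n hn
  refine (h.measurable_eq hn G).inter ?_
  have : MeasurableSet ((fun ω => (V n ω, W n ω)) ⁻¹'
      {p : ℕ × ℕ | 1 ≤ p.1 ∧ p.1 ≤ n ∧ G.Adj p.1 p.2}) :=
    (hV.prodMk hW) (MeasurableSet.of_discrete)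
  exact this

lemma law_good (h : IsRandomFriendTree μ T V W) {n : ℕ} (hn : 2 ≤ n) {G : SimpleGraph ℕ}
    (hG : Good n G) :
    μ {ω | T n ω = G ∧ (1 ≤ V n ω ∧ V n ω ≤ n ∧ G.Adj (V n ω) (W n ω))}
      = μ {ω | T n ω = G} := by
  classical
  have e1 : {ω | T n ω = G ∧ (1 ≤ V n ω ∧ V n ω ≤ n ∧ G.Adj (V n ω) (W n ω))}
      = ⋃ w ∈ Finset.Icc 1 n,
        {ω | T n ω = G ∧ (1 ≤ V n ω ∧ V n ω ≤ n ∧ G.Adj (V n ω) (W n ω)) ∧ W n ω = w} := by
    ext ω
    simp only [Set.mem_iUnion, Set.mem_ofPred_eq, Finset.mem_Icc, exists_prop]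
    constructor
    · rintro ⟨h1, h2⟩
      exact ⟨W n ω, hG.supp' h2.2.2, h1, h2, rfl⟩
    · rintro ⟨w, _, h1, h2, _⟩
      exact ⟨h1, h2⟩
  rw [e1, measure_biUnion_finset]
  · rw [Finset.sum_congr rfl (fun w _ => h.law_W hn hG w), ← Finset.mul_sum,
      ← ENNReal.ofReal_sum_of_nonneg (fun w _ => q_nonneg n G w), sum_q hn hG]
    simp
  · intro a _ b _ hab
    refine Set.disjoint_left.2 ?_
    rintro ω ⟨_, _, h1⟩ ⟨_, _, h2⟩
    exact hab (h1.symm.trans h2)
  · intro w _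
    have := (h.measurable_good hn G).inter (h.measurable_W n hn (measurableSet_singleton w))
    convert this using 1
    ext ω
    simp only [Set.mem_ofPred_eq, Set.mem_inter_iff, Set.mem_preimage, Set.mem_singleton_iff]
    tauto

lemma null_bad (h : IsRandomFriendTree μ T V W) {n : ℕ} (hn : 2 ≤ n) {G : SimpleGraph ℕ}
    (hG : Good n G) :
    μ {ω | T n ω = G ∧ ¬ (1 ≤ V n ω ∧ V n ω ≤ n ∧ G.Adj (V n ω) (W n ω))} = 0 := by
  have h1 := h.law_good hn hG
  have h2 := measure_sdiff_add_inter (μ := μ) {ω | T n ω = G} (h.measurable_good hn G)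
  have e1 : {ω | T n ω = G} ∩
      {ω | T n ω = G ∧ (1 ≤ V n ω ∧ V n ω ≤ n ∧ G.Adj (V n ω) (W n ω))}
      = {ω | T n ω = G ∧ (1 ≤ V n ω ∧ V n ω ≤ n ∧ G.Adj (V n ω) (W n ω))} := by
    ext ω; simp only [Set.mem_inter_iff, Set.mem_ofPred_eq]; tauto
  have e2 : {ω | T n ω = G} \
      {ω | T n ω = G ∧ (1 ≤ V n ω ∧ V n ω ≤ n ∧ G.Adj (V n ω) (W n ω))}
      = {ω | T n ω = G ∧ ¬ (1 ≤ V n ω ∧ V n ω ≤ n ∧ G.Adj (V n ω) (W n ω))} := by
    ext ω; simp only [Set.mem_sdiff, Set.mem_ofPred_eq]; tauto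
  rw [e1, e2, h1] at h2
  have h3 : μ {ω | T n ω = G} ≠ ⊤ := measure_ne_top _ _
  have h4 : μ {ω | T n ω = G ∧ ¬ (1 ≤ V n ω ∧ V n ω ≤ n ∧ G.Adj (V n ω) (W n ω))}
      + μ {ω | T n ω = G} = 0 + μ {ω | T n ω = G} := by rw [h2, zero_add]
  exact (ENNReal.add_left_inj h3).1 h4

lemma ae_good_and (h : IsRandomFriendTree μ T V W) {n : ℕ} (hn : 2 ≤ n) :
    (∀ᵐ ω ∂μ, Good n (T n ω)) ∧ (∀ᵐ ω ∂μ, 1 ≤ W n ω ∧ W n ω ≤ n) := by
  have key : ∀ n, 2 ≤ n → (∀ᵐ ω ∂μ, Good n (T n ω)) → (∀ᵐ ω ∂μ, 1 ≤ W n ω ∧ W n ω ≤ n) := by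
    intro n hn hgood
    have hnull : μ (⋃ G ∈ (GG n ∩ {G | Good n G}),
        {ω | T n ω = G ∧ ¬ (1 ≤ V n ω ∧ V n ω ≤ n ∧ G.Adj (V n ω) (W n ω))}) = 0 := by
      rw [measure_biUnion_null_iff ((GG_finite n).inter_of_left _).countable]
      intro G hG
      exact h.null_bad hn hG.2
    filter_upwards [hgood, measure_eq_zero_iff_ae_notMem.1 hnull] with ω h1 h2
    have h3 : 1 ≤ V n ω ∧ V n ω ≤ n ∧ (T n ω).Adj (V n ω) (W n ω) := by
      by_contra hcon
      exact h2 (Set.mem_biUnion (x := T n ω)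
        ⟨fun a b hab => ⟨(h1.supp a b hab).2, (h1.supp' hab).2⟩, h1⟩ ⟨rfl, hcon⟩)
    exact h1.supp' h3.2.2
  induction n, hn using Nat.le_induction with
  | base =>
    have : ∀ᵐ ω ∂μ, Good 2 (T 2 ω) := Eventually.of_forall fun ω => by
      rw [h.T_two]; exact good_two
    exact ⟨this, key 2 le_rfl this⟩
  | succ n hn ih =>
    have : ∀ᵐ ω ∂μ, Good (n + 1) (T (n + 1) ω) := by
      filter_upwards [ih.1, ih.2] with ω h1 h2
      rw [h.T_succ n hn]
      exact h1.step h2.1 h2.2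
    exact ⟨this, key (n + 1) (by omega) this⟩

lemma law_R (h : IsRandomFriendTree μ T V W) {n : ℕ} (hn : 2 ≤ n) (G : SimpleGraph ℕ) (w : ℕ) :
    μ.real {ω | R n (T n ω) = G ∧ W n ω = w} = μ.real {ω | R n (T n ω) = G} * q n G w := by
  have hg := (h.ae_good_and hn).1
  have e1 : ({ω | R n (T n ω) = G ∧ W n ω = w} : Set Ω) =ᵐ[μ] {ω | T n ω = G ∧ W n ω = w} := by
    filter_upwards [hg] with ω h1
    apply propext
    change (R n (T n ω) = G ∧ W n ω = w) ↔ (T n ω = G ∧ W n ω = w)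
    rw [h1.R_eq]
  have e2 : ({ω | R n (T n ω) = G} : Set Ω) =ᵐ[μ] {ω | T n ω = G} := by
    filter_upwards [hg] with ω h1
    apply propext
    change (R n (T n ω) = G) ↔ (T n ω = G)
    rw [h1.R_eq]
  rw [measureReal_congr e1, measureReal_congr e2]
  by_cases hG : Good n G
  · have h1 := h.law_W hn hG w
    have h2 : μ {ω | T n ω = G ∧ W n ω = w}
        = μ {ω | T n ω = G ∧ (1 ≤ V n ω ∧ V n ω ≤ n ∧ G.Adj (V n ω) (W n ω)) ∧ W n ω = w} := by
      apply measure_congr
      filter_upwards [measure_eq_zero_iff_ae_notMem.1 (h.null_bad hn hG)] with ω h3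
      apply propext
      change (T n ω = G ∧ W n ω = w) ↔
        (T n ω = G ∧ (1 ≤ V n ω ∧ V n ω ≤ n ∧ G.Adj (V n ω) (W n ω)) ∧ W n ω = w)
      constructor
      · intro h4
        refine ⟨h4.1, ?_, h4.2⟩
        by_contra hcon
        exact h3 ⟨h4.1, hcon⟩
      · intro h4; exact ⟨h4.1, h4.2.2⟩
    rw [Measure.real, Measure.real, h2, h1, ENNReal.toReal_mul,
      ENNReal.toReal_ofReal (q_nonneg n G w)]
  · have h1 : μ {ω | T n ω = G} = 0 := by
      rw [measure_eq_zero_iff_ae_notMem]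
      filter_upwards [hg] with ω h2 h3
      change T n ω = G at h3
      rw [h3] at h2
      exact hG h2
    have h2 : μ {ω | T n ω = G ∧ W n ω = w} = 0 :=
      measure_mono_null (fun ω hω => hω.1) h1
    rw [Measure.real, Measure.real, h2, h1]
    simp

lemma integral_eq_sum (h : IsRandomFriendTree μ T V W) {n : ℕ} (hn : 2 ≤ n)
    (f : SimpleGraph ℕ → ℝ) (B : Set Ω) :
    ∫ ω in B, f (R n (T n ω)) ∂μ
      = ∑ G ∈ (GG_finite n).toFinset, f G * μ.real ({ω | R n (T n ω) = G} ∩ B) := by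
  classical
  have e1 : ∀ ω, f (R n (T n ω)) = ∑ G ∈ (GG_finite n).toFinset,
      ({ω | R n (T n ω) = G} : Set Ω).indicator (fun _ => f G) ω := by
    intro ω
    rw [Finset.sum_eq_single (R n (T n ω))]
    · rw [Set.indicator_of_mem]; rfl
    · intro G _ hG
      rw [Set.indicator_of_notMem]
      intro h1
      exact hG h1.symm
    · intro h1
      rw [Set.Finite.mem_toFinset] at h1
      exact absurd (R_mem_GG n _) h1
  simp_rw [e1]
  rw [integral_finsetSum]
  · refine Finset.sum_congr rfl fun G _ => ?_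
    rw [integral_indicator_const _ (h.measurable_R_eq hn G), smul_eq_mul, mul_comm]
    rw [measureReal_restrict_apply (h.measurable_R_eq hn G)]
  · intro G _
    exact (integrable_const _).indicator (h.measurable_R_eq hn G)

lemma integral_W (h : IsRandomFriendTree μ T V W) {n : ℕ} (hn : 2 ≤ n)
    (f : SimpleGraph ℕ → ℝ) (w : ℕ) :
    ∫ ω in {ω | W n ω = w}, f (R n (T n ω)) ∂μ = ∫ ω, q n (R n (T n ω)) w * f (R n (T n ω)) ∂μ := by
  rw [h.integral_eq_sum hn f, ← setIntegral_univ,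
    h.integral_eq_sum hn (fun G => q n G w * f G)]
  refine Finset.sum_congr rfl fun G _ => ?_
  have e1 : ({ω | R n (T n ω) = G} ∩ {ω | W n ω = w} : Set Ω)
      = {ω | R n (T n ω) = G ∧ W n ω = w} := rfl
  rw [Set.inter_univ, e1, h.law_R hn G w]
  ring

/-- The transfer lemma: conditional expectation of a function of the next tree. -/
lemma transfer (h : IsRandomFriendTree μ T V W) {n : ℕ} (hn : 2 ≤ n) (f : SimpleGraph ℕ → ℝ) :
    ∫ ω, f (R (n + 1) (T (n + 1) ω)) ∂μ = ∫ ω, stepE n f (R n (T n ω)) ∂μ := by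
  classical
  have h1 := h.ae_good_and hn
  have h2 := (h.ae_good_and (show 2 ≤ n + 1 by omega)).1
  have e1 : ∀ᵐ ω ∂μ, f (R (n + 1) (T (n + 1) ω)) = ∑ w ∈ Finset.Icc 1 n,
      ({ω | W n ω = w} : Set Ω).indicator
        (fun ω => f (R n (T n ω) ⊔ SimpleGraph.edge (n + 1) w)) ω := by
    filter_upwards [h1.1, h1.2, h2] with ω h3 h4 h5
    rw [h5.R_eq, h.T_succ n hn, Finset.sum_eq_single (W n ω)]
    · rw [Set.indicator_of_mem (show ω ∈ {ω' | W n ω' = W n ω} from rfl), h3.R_eq]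
    · intro w _ hw
      rw [Set.indicator_of_notMem]
      intro h6
      exact hw h6.symm
    · intro h6
      rw [Finset.mem_Icc] at h6
      exact absurd h4 h6
  have hm : ∀ w, MeasurableSet {ω | W n ω = w} := fun w =>
    h.measurable_W n hn (measurableSet_singleton w)
  rw [integral_congr_ae e1, integral_finsetSum]
  · unfold stepE
    rw [integral_finsetSum]
    · refine Finset.sum_congr rfl fun w _ => ?_
      rw [integral_indicator (hm w)]
      exact h.integral_W hn (fun G => f (G ⊔ SimpleGraph.edge (n + 1) w)) w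
    · intro w _
      exact h.integrable_comp hn (fun G => q n G w * f (G ⊔ SimpleGraph.edge (n + 1) w))
  · intro w _
    exact (h.integrable_comp hn (fun G => f (G ⊔ SimpleGraph.edge (n + 1) w))).indicator (hm w)

lemma integral_step_le (h : IsRandomFriendTree μ T V W) {n : ℕ} (hn : 2 ≤ n)
    (f g : SimpleGraph ℕ → ℝ) (hfg : ∀ G, Good n G → stepE n f G ≤ g G) :
    ∫ ω, f (R (n + 1) (T (n + 1) ω)) ∂μ ≤ ∫ ω, g (R n (T n ω)) ∂μ := by
  rw [h.transfer hn f]
  refine integral_mono_ae (h.integrable_comp hn _) (h.integrable_comp hn _) ?_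
  filter_upwards [(h.ae_good_and hn).1] with ω h1
  rw [h1.R_eq]
  exact hfg _ h1

/-- The filtration generated by the trees from time `n₀` on. -/
def filt (h : IsRandomFriendTree μ T V W) {n₀ : ℕ} (hn₀ : 2 ≤ n₀) : Filtration ℕ mΩ where
  seq k := MeasurableSpace.comap (fun ω => R (k + n₀) (T (k + n₀) ω)) ⊤
  mono' := by
    intro i j hij
    have e : (fun ω => R (i + n₀) (T (i + n₀) ω))
        = (R (i + n₀)) ∘ (fun ω => R (j + n₀) (T (j + n₀) ω)) := by
      funext ω
      rw [Function.comp_apply, R_R (by omega)]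
      exact (h.R_T (by omega) (by omega) ω).symm
    change MeasurableSpace.comap (fun ω => R (i + n₀) (T (i + n₀) ω)) ⊤ ≤ _
    rw [e, ← MeasurableSpace.comap_comp]
    exact MeasurableSpace.comap_mono le_top
  le' := by
    intro k
    exact (h.measurable_R (show 2 ≤ k + n₀ by omega)).comap_le

lemma supermartingale (h : IsRandomFriendTree μ T V W) {n₀ : ℕ} (hn₀ : 2 ≤ n₀) {v : ℕ}
    (hv : 1 ≤ v) (hvn : v ≤ n₀) :
    Supermartingale (fun k ω => (deg (R (k + n₀) (T (k + n₀) ω)) v : ℝ) / ((k + n₀ : ℕ) : ℝ))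
      (h.filt hn₀) μ := by
  classical
  refine supermartingale_of_setIntegral_succ_le ?_ ?_ ?_
  · intro k
    have h1 : Measurable[MeasurableSpace.comap (fun ω => R (k + n₀) (T (k + n₀) ω)) ⊤]
        (fun ω => (deg (R (k + n₀) (T (k + n₀) ω)) v : ℝ) / ((k + n₀ : ℕ) : ℝ)) := by
      have h2 := comap_measurable (m := ⊤) (fun ω => R (k + n₀) (T (k + n₀) ω))
      exact (measurable_from_top
        (f := fun G : SimpleGraph ℕ => (deg G v : ℝ) / ((k + n₀ : ℕ) : ℝ))).comp h2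
    exact h1.stronglyMeasurable
  · intro k
    exact h.integrable_comp (show 2 ≤ k + n₀ by omega)
      (fun G => (deg G v : ℝ) / ((k + n₀ : ℕ) : ℝ))
  · intro k s hs
    obtain ⟨A, -, hA⟩ := hs
    have hs' : MeasurableSet s := by
      rw [← hA]; exact h.measurable_R (show 2 ≤ k + n₀ by omega) trivial
    rw [← integral_indicator hs', ← integral_indicator hs']
    set n := k + n₀ with hn
    have hn2 : 2 ≤ n := by omega
    have e0 : k + 1 + n₀ = n + 1 := by omega
    have e1 : ∀ ω, s.indicator (fun ω => (deg (R (k + 1 + n₀) (T (k + 1 + n₀) ω)) v : ℝ)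
          / ((k + 1 + n₀ : ℕ) : ℝ)) ω
        = (fun G => if R n G ∈ A then (deg G v : ℝ) / ((n + 1 : ℕ) : ℝ) else 0)
          (R (n + 1) (T (n + 1) ω)) := by
      intro ω
      have h1 : (ω ∈ s) ↔ R n (R (n + 1) (T (n + 1) ω)) ∈ A := by
        rw [R_R (by omega), h.R_T hn2 (by omega), ← hA]; rfl
      by_cases h2 : ω ∈ s
      · rw [Set.indicator_of_mem h2, e0]
        change _ = if R n (R (n + 1) (T (n + 1) ω)) ∈ A then _ else _
        rw [if_pos (h1.1 h2)]
      · rw [Set.indicator_of_notMem h2]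
        change _ = if R n (R (n + 1) (T (n + 1) ω)) ∈ A then _ else _
        rw [if_neg (fun h3 => h2 (h1.2 h3))]
    have e2 : ∀ ω, s.indicator (fun ω => (deg (R n (T n ω)) v : ℝ) / ((n : ℕ) : ℝ)) ω
        = (fun G => if R n G ∈ A then (deg G v : ℝ) / (n : ℝ) else 0) (R n (T n ω)) := by
      intro ω
      have h1 : (ω ∈ s) ↔ R n (R n (T n ω)) ∈ A := by
        rw [R_R le_rfl, ← hA]; rfl
      by_cases h2 : ω ∈ s
      · rw [Set.indicator_of_mem h2]
        change _ = if R n (R n (T n ω)) ∈ A then _ else _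
        rw [if_pos (h1.1 h2)]
      · rw [Set.indicator_of_notMem h2]
        change _ = if R n (R n (T n ω)) ∈ A then _ else _
        rw [if_neg (fun h3 => h2 (h1.2 h3))]
    simp_rw [e1, e2]
    refine h.integral_step_le hn2
      (fun G => if R n G ∈ A then (deg G v : ℝ) / ((n + 1 : ℕ) : ℝ) else 0)
      (fun G => if R n G ∈ A then (deg G v : ℝ) / (n : ℝ) else 0) ?_
    intro G hG
    have hn0 : (0 : ℝ) < n := by exact_mod_cast (by omega : 0 < n)
    have h3 : ∀ w, R n (G ⊔ SimpleGraph.edge (n + 1) w) = R n G := fun w => R_sup_edge le_rfl G w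
    unfold stepE
    simp only [h3]
    by_cases h4 : R n G ∈ A
    · simp only [if_pos h4]
      have h5 := stepE_deg_le hn2 v hG hv (by omega)
      unfold stepE at h5
      have h6 : ∑ x ∈ Finset.Icc 1 n, q n G x * ((deg (G ⊔ SimpleGraph.edge (n + 1) x) v : ℝ)
          / ((n + 1 : ℕ) : ℝ))
          = (∑ x ∈ Finset.Icc 1 n, q n G x * ((deg (G ⊔ SimpleGraph.edge (n + 1) x) v : ℝ)))
            / ((n + 1 : ℕ) : ℝ) := by
        rw [Finset.sum_div]
        refine Finset.sum_congr rfl fun x _ => ?_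
        ring
      rw [h6, div_le_iff₀ (by positivity)]
      refine h5.trans (le_of_eq ?_)
      push_cast
      field_simp
    · simp only [if_neg h4, mul_zero, Finset.sum_const_zero, le_refl]

lemma ae_all_good (h : IsRandomFriendTree μ T V W) :
    ∀ᵐ ω ∂μ, ∀ n, 2 ≤ n → Good n (T n ω) := by
  rw [ae_all_iff]
  intro n
  by_cases hn : 2 ≤ n
  · filter_upwards [(h.ae_good_and hn).1] with ω h1 _
    exact h1
  · exact Eventually.of_forall fun ω h1 => absurd h1 hn

lemma deg_le_n {n : ℕ} {G : SimpleGraph ℕ} (h : Good n G) (v : ℕ) : deg G v ≤ n := by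
  classical
  rw [h.deg_eq_card v]
  exact (Finset.card_filter_le _ _).trans (by simp)

lemma ae_tendsto (h : IsRandomFriendTree μ T V W) {v : ℕ} (hv : 1 ≤ v) :
    ∀ᵐ ω ∂μ, Tendsto (fun n : ℕ => (deg (T n ω) v : ℝ) / n) atTop (𝓝 (Z T v ω)) := by
  set n₀ := v + 2 with hn₀
  have h1 := (h.supermartingale (show 2 ≤ n₀ by omega) hv (show v ≤ n₀ by omega)).neg
  have h2 : ∀ k, eLpNorm ((-fun k ω => (deg (R (k + n₀) (T (k + n₀) ω)) v : ℝ)
      / ((k + n₀ : ℕ) : ℝ)) k) 1 μ ≤ ((1 : NNReal) : ℝ≥0∞) := by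
    intro k
    have h3 : ∀ᵐ ω ∂μ, ‖(-fun k ω => (deg (R (k + n₀) (T (k + n₀) ω)) v : ℝ)
      / ((k + n₀ : ℕ) : ℝ)) k ω‖ ≤ 1 := by
      filter_upwards [h.ae_all_good] with ω h4
      have h5 := h4 (k + n₀) (by omega)
      have h6 : (0 : ℝ) < ((k + n₀ : ℕ) : ℝ) := by
        have : 0 < k + n₀ := by omega
        exact_mod_cast this
      rw [Pi.neg_apply, Pi.neg_apply, norm_neg, h5.R_eq, Real.norm_eq_abs,
        abs_of_nonneg (by positivity), div_le_one h6]
      exact_mod_cast deg_le_n h5 v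
    refine (eLpNorm_le_of_ae_bound h3).trans ?_
    simp
  have h3 := h1.exists_ae_tendsto_of_bdd h2
  filter_upwards [h3, h.ae_all_good] with ω ⟨c, hc⟩ h4
  have h5 : Tendsto (fun k : ℕ => (deg (T (k + n₀) ω) v : ℝ) / ((k + n₀ : ℕ) : ℝ)) atTop
      (𝓝 (-c)) := by
    have := hc.neg
    refine this.congr fun k => ?_
    rw [Pi.neg_apply, Pi.neg_apply, neg_neg, (h4 (k + n₀) (by omega)).R_eq]
  have h6 : Tendsto (fun n : ℕ => (deg (T n ω) v : ℝ) / (n : ℝ)) atTop (𝓝 (-c)) :=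
    (tendsto_add_atTop_iff_nat (f := fun n : ℕ => (deg (T n ω) v : ℝ) / (n : ℝ)) n₀).1 h5
  unfold Z
  rw [h6.liminf_eq]
  exact h6

lemma EPhi_step (h : IsRandomFriendTree μ T V W) {n : ℕ} (hn : 2 ≤ n) :
    ∫ ω, Φ (n + 1) (R (n + 1) (T (n + 1) ω)) ∂μ
      ≤ ∫ ω, Φ n (R n (T n ω)) ∂μ + (7 / 8 * ∫ ω, Φ n (R n (T n ω)) ∂μ + 2) / n := by
  refine (h.integral_step_le hn (Φ (n + 1)) (fun G => Φ n G + (7 / 8 * Φ n G + 2) / n)
    (fun G hG => stepE_Φ_le hn hG)).trans (le_of_eq ?_)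
  have h1 := h.integrable_comp hn (Φ n)
  have h2 : Integrable (fun ω => 7 / 8 * Φ n (R n (T n ω))) μ := h1.const_mul _
  have h3 : Integrable (fun ω => 7 / 8 * Φ n (R n (T n ω)) + 2) μ := h2.add (integrable_const _)
  have h4 : Integrable (fun ω => (7 / 8 * Φ n (R n (T n ω)) + 2) / (n : ℝ)) μ := h3.div_const _
  rw [integral_add h1 h4, integral_div, integral_add h2 (integrable_const _),
    integral_const_mul]
  simp

lemma EM_step (h : IsRandomFriendTree μ T V W) {m n : ℕ} (hn : 2 ≤ n) (hmn : m ≤ n) :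
    ∫ ω, M m (n + 1) (R (n + 1) (T (n + 1) ω)) ∂μ
      ≤ ∫ ω, M m n (R n (T n ω)) ∂μ + (∫ ω, M m n (R n (T n ω)) ∂μ
        + 2 * (2 + ∫ ω, (X n (R n (T n ω)) : ℝ) ∂μ)) / n := by
  refine (h.integral_step_le hn (M m (n + 1))
    (fun G => M m n G + (M m n G + 2 * (2 + X n G)) / n)
    (fun G hG => stepE_M_le hn hmn hG)).trans (le_of_eq ?_)
  have h1 := h.integrable_comp hn (M m n)
  have h2 := h.integrable_comp hn (fun G => (X n G : ℝ))
  have h3 := h.integrable_comp hn (fun G => 2 * (2 + (X n G : ℝ)))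
  have h4 := h.integrable_comp hn (fun G => M m n G + 2 * (2 + (X n G : ℝ)))
  have h5 := h.integrable_comp hn (fun G => (M m n G + 2 * (2 + (X n G : ℝ))) / (n : ℝ))
  rw [integral_add h1 h5, integral_div, integral_add h1 h3, integral_const_mul,
    integral_add (integrable_const _) h2]
  simp

/-- The upper bounds for the increments of the normalised mass. -/
noncomputable def eseq (μ : Measure Ω) (T : ℕ → Ω → SimpleGraph ℕ) (k : ℕ) : ℝ :=
  2 * (2 + ∫ ω, (X (k + 2) (R (k + 2) (T (k + 2) ω)) : ℝ) ∂μ) / (((k : ℝ) + 2) * ((k : ℝ) + 3))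

lemma eseq_nonneg (μ : Measure Ω) (T : ℕ → Ω → SimpleGraph ℕ) (k : ℕ) : 0 ≤ eseq μ T k := by
  unfold eseq
  have : 0 ≤ ∫ ω, (X (k + 2) (R (k + 2) (T (k + 2) ω)) : ℝ) ∂μ :=
    integral_nonneg fun ω => by positivity
  positivity

lemma eseq_summable (h : IsRandomFriendTree μ T V W) : Summable (eseq μ T) := by
  set P : ℕ → ℝ := fun n => ∫ ω, Φ n (R n (T n ω)) ∂μ with hP
  have hP0 : ∀ n, 0 ≤ P n := fun n => integral_nonneg fun ω => Φ_nonneg _ _
  have hXP : ∀ n, 2 ≤ n → ∫ ω, (X n (R n (T n ω)) : ℝ) ∂μ ≤ 8 / 7 * P n := by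
    intro n hn
    rw [hP, ← integral_const_mul]
    refine integral_mono (h.integrable_comp hn (fun G => (X n G : ℝ)))
      (h.integrable_comp hn (fun G => 8 / 7 * Φ n G)) fun ω => X_le_Φ _ _
  have hle : ∀ k, eseq μ T k
      ≤ (4 + 16 / 7 * P (k + 2)) / (((k : ℝ) + 2) * ((k : ℝ) + 3)) := by
    intro k
    unfold eseq
    have := hXP (k + 2) (by omega)
    gcongr
    linarith
  refine summable_of_sum_range_le (eseq_nonneg μ T) (c := 4 * (1 / 2)
    + 16 / 7 * (8 * (P 2 / 2 + 1))) ?_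
  intro N
  refine (Finset.sum_le_sum fun k _ => hle k).trans ?_
  have h1 : ∀ N : ℕ, ∑ k ∈ Finset.range N, 1 / (((k : ℝ) + 2) * ((k : ℝ) + 3))
      = 1 / 2 - 1 / ((N : ℝ) + 2) := by
    intro N
    induction N with
    | zero => simp
    | succ N ih =>
      rw [Finset.sum_range_succ, ih]
      push_cast
      field_simp
      ring
  have h2 : ∀ N : ℕ, 1 / 8 * ∑ k ∈ Finset.range N, P (k + 2) / (((k : ℝ) + 2) * ((k : ℝ) + 3))
      + P (N + 2) / ((N : ℝ) + 2) + 2 / ((N : ℝ) + 2) ≤ P 2 / 2 + 1 := by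
    intro N
    induction N with
    | zero => simp
    | succ N ih =>
      rw [Finset.sum_range_succ]
      have h3 := h.EPhi_step (show 2 ≤ N + 2 by omega)
      change P (N + 2 + 1) ≤ P (N + 2) + (7 / 8 * P (N + 2) + 2) / ((N + 2 : ℕ) : ℝ) at h3
      have h4 : N + 1 + 2 = N + 2 + 1 := by omega
      rw [h4]
      have h5 : P (N + 2 + 1) / ((N : ℝ) + 3) ≤
          (P (N + 2) + (7 / 8 * P (N + 2) + 2) / ((N + 2 : ℕ) : ℝ)) / ((N : ℝ) + 3) := by
        gcongr
      have h6 : 1 / 8 * (P (N + 2) / (((N : ℝ) + 2) * ((N : ℝ) + 3)))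
          + (P (N + 2) + (7 / 8 * P (N + 2) + 2) / ((N + 2 : ℕ) : ℝ)) / ((N : ℝ) + 3)
          + 2 / ((N : ℝ) + 3) = P (N + 2) / ((N : ℝ) + 2) + 2 / ((N : ℝ) + 2) := by
        push_cast
        field_simp
        ring
      have h7 : ((N + 1 : ℕ) : ℝ) + 2 = (N : ℝ) + 3 := by push_cast; ring
      rw [h7]
      linarith
  have h3 : ∑ k ∈ Finset.range N, P (k + 2) / (((k : ℝ) + 2) * ((k : ℝ) + 3))
      ≤ 8 * (P 2 / 2 + 1) := by
    have h4 := h2 N
    have h5 : 0 ≤ P (N + 2) / ((N : ℝ) + 2) := div_nonneg (hP0 _) (by positivity)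
    have h6 : (0 : ℝ) ≤ 2 / ((N : ℝ) + 2) := by positivity
    linarith
  have h4 : ∑ k ∈ Finset.range N, (4 + 16 / 7 * P (k + 2)) / (((k : ℝ) + 2) * ((k : ℝ) + 3))
      = 4 * ∑ k ∈ Finset.range N, 1 / (((k : ℝ) + 2) * ((k : ℝ) + 3))
        + 16 / 7 * ∑ k ∈ Finset.range N, P (k + 2) / (((k : ℝ) + 2) * ((k : ℝ) + 3)) := by
    rw [Finset.mul_sum, Finset.mul_sum, ← Finset.sum_add_distrib]
    refine Finset.sum_congr rfl fun k _ => ?_
    ring
  rw [h4, h1 N]
  have h5 : (0 : ℝ) ≤ 1 / ((N : ℝ) + 2) := by positivity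
  linarith

lemma EM_le (h : IsRandomFriendTree μ T V W) (m j : ℕ) :
    (∫ ω, M (m + 2) (m + 2 + j) (R (m + 2 + j) (T (m + 2 + j) ω)) ∂μ) / ((m + 2 + j : ℕ) : ℝ)
      ≤ ∑' i, eseq μ T (i + m) := by
  have hs : Summable (fun i => eseq μ T (i + m)) := (summable_nat_add_iff m).2 h.eseq_summable
  have key : ∀ j : ℕ,
      (∫ ω, M (m + 2) (m + 2 + j) (R (m + 2 + j) (T (m + 2 + j) ω)) ∂μ) / ((m + 2 + j : ℕ) : ℝ)
      ≤ ∑ i ∈ Finset.range j, eseq μ T (i + m) := by
    intro j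
    induction j with
    | zero =>
      have : ∫ ω, M (m + 2) (m + 2 + 0) (R (m + 2 + 0) (T (m + 2 + 0) ω)) ∂μ = 0 := by
        rw [add_zero]
        rw [integral_congr_ae (g := fun _ => (0 : ℝ))]
        · simp
        · filter_upwards [(h.ae_good_and (show 2 ≤ m + 2 by omega)).1] with ω h1
          rw [h1.R_eq]
          exact M_self _ h1
      rw [this]; simp
    | succ j ih =>
      rw [Finset.sum_range_succ]
      have h1 := h.EM_step (m := m + 2) (n := m + 2 + j) (by omega) (by omega)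
      have h2 : (∫ ω, M (m + 2) (m + 2 + (j + 1)) (R (m + 2 + (j + 1))
          (T (m + 2 + (j + 1)) ω)) ∂μ) / ((m + 2 + (j + 1) : ℕ) : ℝ)
          ≤ (∫ ω, M (m + 2) (m + 2 + j) (R (m + 2 + j) (T (m + 2 + j) ω)) ∂μ
            + (∫ ω, M (m + 2) (m + 2 + j) (R (m + 2 + j) (T (m + 2 + j) ω)) ∂μ
        + 2 * (2 + ∫ ω, (X (m + 2 + j) (R (m + 2 + j) (T (m + 2 + j) ω)) : ℝ) ∂μ))
          / ((m + 2 + j : ℕ) : ℝ)) / ((m + 2 + (j + 1) : ℕ) : ℝ) := by
        gcongr
        exact h1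
      refine h2.trans ?_
      have h3 : eseq μ T (j + m) = 2 * (2 + ∫ ω, (X (m + 2 + j) (R (m + 2 + j)
          (T (m + 2 + j) ω)) : ℝ) ∂μ) / (((m + 2 + j : ℕ) : ℝ) * ((m + 2 + (j + 1) : ℕ) : ℝ)) := by
        unfold eseq
        have e : j + m + 2 = m + 2 + j := by omega
        rw [e]
        push_cast
        congr 1
        ring
      rw [h3]
      refine le_trans (le_of_eq ?_) (add_le_add_left ih _)
      have h4 : (0 : ℝ) < ((m + 2 + j : ℕ) : ℝ) := by
        have : 0 < m + 2 + j := by omega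
        exact_mod_cast this
      have h5 : ((m + 2 + (j + 1) : ℕ) : ℝ) = ((m + 2 + j : ℕ) : ℝ) + 1 := by push_cast; ring
      rw [h5]
      field_simp
      ring
  exact (key j).trans (hs.sum_le_tsum _ fun i _ => eseq_nonneg μ T _)

lemma main (h : IsRandomFriendTree μ T V W) :
    ∀ᵐ ω ∂μ, HasSum (fun i : ℕ => Z T (i + 1) ω) 1 := by
  have hconv : ∀ᵐ ω ∂μ, ∀ v, 1 ≤ v →
      Tendsto (fun n : ℕ => (deg (T n ω) v : ℝ) / n) atTop (𝓝 (Z T v ω)) := by
    rw [ae_all_iff]
    intro v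
    by_cases hv : 1 ≤ v
    · filter_upwards [h.ae_tendsto hv] with ω h1 _
      exact h1
    · exact Eventually.of_forall fun ω h1 => absurd h1 hv
  -- measurability
  have hmeas : ∀ v, 1 ≤ v → AEMeasurable (Z T v) μ := by
    intro v hv
    refine aemeasurable_of_tendsto_metrizable_ae atTop (f := fun (k : ℕ) ω =>
      (deg (R (k + 2) (T (k + 2) ω)) v : ℝ) / ((k + 2 : ℕ) : ℝ)) ?_ ?_
    · intro k
      exact (h.measurable_comp (show 2 ≤ k + 2 by omega)
        (fun G => (deg G v : ℝ) / ((k + 2 : ℕ) : ℝ))).aemeasurable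
    · filter_upwards [h.ae_tendsto hv, h.ae_all_good] with ω h1 h2
      have h3 := (tendsto_add_atTop_iff_nat
        (f := fun n : ℕ => (deg (T n ω) v : ℝ) / (n : ℝ)) 2).2 h1
      refine h3.congr fun k => ?_
      rw [(h2 (k + 2) (by omega)).R_eq]
  -- partial sums
  have hpart : ∀ᵐ ω ∂μ, ∀ m, ∑ v ∈ Finset.Icc 1 m, Z T v ω ≤ 1 := by
    filter_upwards [hconv, h.ae_all_good] with ω h1 h2 m
    have h3 : Tendsto (fun n : ℕ => ∑ v ∈ Finset.Icc 1 m, (deg (T n ω) v : ℝ) / n) atTop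
        (𝓝 (∑ v ∈ Finset.Icc 1 m, Z T v ω)) :=
      tendsto_finsetSum _ fun v hv => h1 v (Finset.mem_Icc.1 hv).1
    have h4 : Tendsto (fun n : ℕ => 1 + (m : ℝ) / n) atTop (𝓝 (1 + 0)) :=
      tendsto_const_nhds.add (tendsto_const_div_atTop_nhds_zero_nat (m : ℝ))
    rw [add_zero] at h4
    refine le_of_tendsto_of_tendsto h3 h4 ?_
    filter_upwards [eventually_ge_atTop (m + 2)] with n hn
    have hn0 : (0 : ℝ) < n := by exact_mod_cast (by omega : 0 < n)
    rw [← Finset.sum_div, div_le_iff₀ hn0, add_mul, one_mul, div_mul_cancel₀ _ hn0.ne']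
    exact mass_upper (by omega) (h2 n (by omega))
  have hZ0 : ∀ᵐ ω ∂μ, ∀ v, 1 ≤ v → 0 ≤ Z T v ω := by
    filter_upwards [hconv] with ω h1 v hv
    exact ge_of_tendsto' (h1 v hv) fun n => by positivity
  -- the Fatou argument
  have hfatou : ∀ m : ℕ, ∫⁻ ω, ENNReal.ofReal (1 - ∑ v ∈ Finset.Icc 1 (m + 2), Z T v ω) ∂μ
      ≤ ENNReal.ofReal (∑' i, eseq μ T (i + m)) := by
    intro m
    have h1 : ∀ᵐ ω ∂μ, ENNReal.ofReal (1 - ∑ v ∈ Finset.Icc 1 (m + 2), Z T v ω)
        ≤ liminf (fun j : ℕ => ENNReal.ofReal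
          (M (m + 2) (m + 2 + j) (R (m + 2 + j) (T (m + 2 + j) ω)) / ((m + 2 + j : ℕ) : ℝ)))
            atTop := by
      filter_upwards [hconv, h.ae_all_good] with ω h1 h2
      have h3 : Tendsto (fun n : ℕ => ∑ v ∈ Finset.Icc 1 (m + 2), (deg (T n ω) v : ℝ) / n) atTop
          (𝓝 (∑ v ∈ Finset.Icc 1 (m + 2), Z T v ω)) :=
        tendsto_finsetSum _ fun v hv => h1 v (Finset.mem_Icc.1 hv).1
      have h4 : Tendsto (fun n : ℕ => 1 - (2 : ℝ) / n) atTop (𝓝 (1 - 0)) :=
        tendsto_const_nhds.sub (tendsto_const_div_atTop_nhds_zero_nat (2 : ℝ))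
      rw [sub_zero] at h4
      have h5 := h4.sub h3
      have h6 : Tendsto (fun j : ℕ => ENNReal.ofReal ((1 - (2 : ℝ) / ((m + 2 + j : ℕ) : ℝ))
          - ∑ v ∈ Finset.Icc 1 (m + 2), (deg (T (m + 2 + j) ω) v : ℝ) / ((m + 2 + j : ℕ) : ℝ)))
          atTop (𝓝 (ENNReal.ofReal (1 - ∑ v ∈ Finset.Icc 1 (m + 2), Z T v ω))) := by
        refine (ENNReal.continuous_ofReal.tendsto _).comp ?_
        have h7 := (tendsto_add_atTop_iff_nat (f := fun n : ℕ => (1 - (2 : ℝ) / (n : ℝ))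
          - ∑ v ∈ Finset.Icc 1 (m + 2), (deg (T n ω) v : ℝ) / (n : ℝ)) (m + 2)).2 h5
        refine h7.congr fun j => ?_
        rw [add_comm j (m + 2)]
      rw [← h6.liminf_eq]
      refine liminf_le_liminf (Eventually.of_forall fun j => ?_)
      apply ENNReal.ofReal_le_ofReal
      have hg := h2 (m + 2 + j) (by omega)
      have hn0 : (0 : ℝ) < ((m + 2 + j : ℕ) : ℝ) := by
        have : 0 < m + 2 + j := by omega
        exact_mod_cast this
      have h8 := mass_lower (m := m + 2) (n := m + 2 + j) (by omega) hg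
      rw [hg.R_eq, le_div_iff₀ hn0, sub_mul, sub_mul, one_mul, div_mul_cancel₀ _ hn0.ne',
        ← Finset.sum_div, div_mul_cancel₀ _ hn0.ne']
      linarith
    refine (lintegral_mono_ae h1).trans ?_
    refine (lintegral_liminf_le fun j => ?_).trans ?_
    · exact h.measurable_comp (show 2 ≤ m + 2 + j by omega)
        (fun G => ENNReal.ofReal (M (m + 2) (m + 2 + j) G / ((m + 2 + j : ℕ) : ℝ)))
    · refine liminf_le_of_le (by isBoundedDefault) ?_
      intro b hb
      obtain ⟨j, hj⟩ := hb.exists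
      refine hj.trans ?_
      rw [← ofReal_integral_eq_lintegral_ofReal]
      · apply ENNReal.ofReal_le_ofReal
        rw [integral_div]
        exact h.EM_le m j
      · exact h.integrable_comp (show 2 ≤ m + 2 + j by omega)
          (fun G => M (m + 2) (m + 2 + j) G / ((m + 2 + j : ℕ) : ℝ))
      · exact Eventually.of_forall fun ω => div_nonneg (M_nonneg _ _ _) (by positivity)
  -- conclusion
  have htail : Tendsto (fun m : ℕ => ENNReal.ofReal (∑' i, eseq μ T (i + m))) atTop (𝓝 0) := by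
    have := (ENNReal.continuous_ofReal.tendsto 0).comp (tendsto_sum_nat_add (eseq μ T))
    simpa [Function.comp_def] using this
  have hinf : ∫⁻ ω, (⨅ m : ℕ, ENNReal.ofReal (1 - ∑ v ∈ Finset.Icc 1 (m + 2), Z T v ω)) ∂μ
      = 0 := by
    refine le_antisymm ?_ zero_le
    refine ge_of_tendsto' htail fun m => ?_
    refine le_trans (lintegral_mono fun ω => iInf_le _ m) (hfatou m)
  have hae : AEMeasurable (fun ω => ⨅ m : ℕ,
      ENNReal.ofReal (1 - ∑ v ∈ Finset.Icc 1 (m + 2), Z T v ω)) μ := by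
    refine AEMeasurable.iInf fun m => ?_
    refine ENNReal.measurable_ofReal.comp_aemeasurable ?_
    refine aemeasurable_const.sub ?_
    refine Finset.aemeasurable_fun_sum _ fun v hv => hmeas v (Finset.mem_Icc.1 hv).1
  rw [lintegral_eq_zero_iff' hae] at hinf
  filter_upwards [hinf, hpart, hZ0] with ω h1 h2 h3
  have h4 : ∀ N : ℕ, ∑ i ∈ Finset.range N, Z T (i + 1) ω = ∑ v ∈ Finset.Icc 1 N, Z T v ω := by
    intro N
    induction N with
    | zero => simp
    | succ N ih => rw [Finset.sum_range_succ, ih, Finset.sum_Icc_succ_top (by omega)]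
  have h5 : ∀ i, 0 ≤ Z T (i + 1) ω := fun i => h3 (i + 1) (by omega)
  have h6 : Summable (fun i => Z T (i + 1) ω) :=
    summable_of_sum_range_le h5 fun N => by rw [h4]; exact h2 N
  have h7 : ∑' i, Z T (i + 1) ω ≤ 1 := h6.tsum_le_of_sum_range_le fun N => by
    rw [h4]; exact h2 N
  have h8 : 1 ≤ ∑' i, Z T (i + 1) ω := by
    have h9 : (⨅ m : ℕ, ENNReal.ofReal (1 - ∑ v ∈ Finset.Icc 1 (m + 2), Z T v ω)) = 0 := h1
    have h10 : ENNReal.ofReal (1 - ∑' i, Z T (i + 1) ω) ≤ 0 := by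
      rw [← h9]
      refine le_iInf fun m => ?_
      apply ENNReal.ofReal_le_ofReal
      have := h6.sum_le_tsum (Finset.range (m + 2)) fun i _ => h5 i
      rw [h4] at this
      linarith
    have h11 := ENNReal.ofReal_eq_zero.1 (le_antisymm h10 zero_le)
    linarith
  rw [← le_antisymm h7 h8]
  exact h6.hasSum

end IsRandomFriendTree

end prob


/-! ### Existence of a random friend tree (non-vacuity of the definition) -/

section existence

open ProbabilityTheory

/-- A pair read off the source of randomness, replaced by `(1, 1)` when it is not admissible. -/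
noncomputable def clamp (n : ℕ) (G : SimpleGraph ℕ) (p : ℕ × ℕ) : ℕ × ℕ :=
  open Classical in if 1 ≤ p.1 ∧ p.1 ≤ n ∧ G.Adj p.1 p.2 then p else (1, 1)

/-- The tree built from the source of randomness `ω`. -/
noncomputable def Tc (ω : ℕ × SimpleGraph ℕ → ℕ × ℕ) : ℕ → SimpleGraph ℕ
  | 0 => ⊥
  | 1 => ⊥
  | 2 => SimpleGraph.edge 1 2
  | (n + 3) => Tc ω (n + 2) ⊔
      SimpleGraph.edge (n + 3) (clamp (n + 2) (Tc ω (n + 2)) (ω (n + 2, Tc ω (n + 2)))).2

lemma Tc_two (ω : ℕ × SimpleGraph ℕ → ℕ × ℕ) : Tc ω 2 = SimpleGraph.edge 1 2 := rfl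

lemma Tc_succ (ω : ℕ × SimpleGraph ℕ → ℕ × ℕ) {n : ℕ} (hn : 2 ≤ n) :
    Tc ω (n + 1) = Tc ω n ⊔
      SimpleGraph.edge (n + 1) (clamp n (Tc ω n) (ω (n, Tc ω n))).2 := by
  obtain ⟨k, rfl⟩ : ∃ k, n = k + 2 := ⟨n - 2, by omega⟩
  rfl

lemma clamp_snd {n : ℕ} (hn : 2 ≤ n) {G : SimpleGraph ℕ} (hG : Good n G) (p : ℕ × ℕ) :
    1 ≤ (clamp n G p).2 ∧ (clamp n G p).2 ≤ n := by
  unfold clamp
  split_ifs with h
  · exact hG.supp' h.2.2
  · exact ⟨le_rfl, by change 1 ≤ n; omega⟩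

lemma Tc_good (ω : ℕ × SimpleGraph ℕ → ℕ × ℕ) {n : ℕ} (hn : 2 ≤ n) : Good n (Tc ω n) := by
  induction n, hn using Nat.le_induction with
  | base => rw [Tc_two]; exact good_two
  | succ n hn ih =>
    rw [Tc_succ ω hn]
    have := clamp_snd hn ih (ω (n, Tc ω n))
    exact ih.step this.1 this.2

/-- The σ-algebra generated by the coordinates in `S` of the source of randomness. -/
@[reducible] def mS (S : Set (ℕ × SimpleGraph ℕ)) : MeasurableSpace (ℕ × SimpleGraph ℕ → ℕ × ℕ) :=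
  ⨆ i ∈ S, MeasurableSpace.comap (fun ω => ω i) inferInstance

lemma mS_mono {S S' : Set (ℕ × SimpleGraph ℕ)} (h : S ⊆ S') : mS S ≤ mS S' :=
  biSup_mono h

lemma measurable_coord {S : Set (ℕ × SimpleGraph ℕ)} {i : ℕ × SimpleGraph ℕ} (hi : i ∈ S)
    (A : Set (ℕ × ℕ)) : MeasurableSet[mS S] {ω | ω i ∈ A} := by
  have h1 : MeasurableSpace.comap (fun ω : ℕ × SimpleGraph ℕ → ℕ × ℕ => ω i) inferInstance
      ≤ mS S := le_biSup (fun i => MeasurableSpace.comap
        (fun ω : ℕ × SimpleGraph ℕ → ℕ × ℕ => ω i) inferInstance) hi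
  exact h1 _ ⟨A, MeasurableSet.of_discrete, rfl⟩

lemma Tc_measurable {n : ℕ} (hn : 2 ≤ n) (G : SimpleGraph ℕ) :
    MeasurableSet[mS {i | i.1 < n}] {ω | Tc ω n = G} := by
  induction n, hn using Nat.le_induction generalizing G with
  | base => simp only [Tc_two]; exact MeasurableSet.const _
  | succ n hn ih =>
    have e : {ω | Tc ω (n + 1) = G} = ⋃ H ∈ GG n, ({ω | Tc ω n = H} ∩
        {ω | ω (n, H) ∈ {p | H ⊔ SimpleGraph.edge (n + 1) (clamp n H p).2 = G}}) := by
      ext ω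
      simp only [Set.mem_iUnion, Set.mem_ofPred_eq, exists_prop, Set.mem_inter_iff, Tc_succ ω hn]
      constructor
      · intro h
        refine ⟨Tc ω n, fun a b hab => ?_, rfl, h⟩
        exact ⟨((Tc_good ω hn).supp a b hab).2, ((Tc_good ω hn).supp' hab).2⟩
      · rintro ⟨H, _, h1, h2⟩
        rw [h1]; exact h2
    rw [e]
    refine Set.Finite.measurableSet_biUnion (GG_finite n) fun H _ => ?_
    refine MeasurableSet.inter ?_ ?_
    · exact mS_mono (fun i (hi : i.1 < n) => show i.1 < n + 1 by omega) _ (ih H)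
    · exact measurable_coord (show n < n + 1 by omega) _

/-- The law of the pair `(V, W)` given that the tree at time `n` is `G`. -/
noncomputable def pairLaw (i : ℕ × SimpleGraph ℕ) : Measure (ℕ × ℕ) :=
  open Classical in
  if 2 ≤ i.1 ∧ Good i.1 i.2 then
    ∑ v ∈ Finset.Icc 1 i.1, ∑ w ∈ (Finset.Icc 1 i.1).filter (fun w => i.2.Adj v w),
      ((i.1 : ℝ≥0∞)⁻¹ * (deg i.2 v : ℝ≥0∞)⁻¹) • Measure.dirac (v, w)
  else Measure.dirac (1, 1)

lemma pairLaw_apply {n : ℕ} {G : SimpleGraph ℕ} (hn : 2 ≤ n) (hG : Good n G) {v w : ℕ}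
    (hv1 : 1 ≤ v) (hvn : v ≤ n) (hvw : G.Adj v w) :
    pairLaw (n, G) {(v, w)} = (n : ℝ≥0∞)⁻¹ * (deg G v : ℝ≥0∞)⁻¹ := by
  classical
  unfold pairLaw
  rw [if_pos (show 2 ≤ (n, G).1 ∧ Good (n, G).1 (n, G).2 from ⟨hn, hG⟩)]
  rw [Measure.finsetSum_apply, Finset.sum_eq_single v, Measure.finsetSum_apply,
    Finset.sum_eq_single w]
  · simp
  · intro w' _ hw'
    rw [Measure.smul_apply, Measure.dirac_apply' _ (MeasurableSet.of_discrete)]
    simp [hw']
  · intro h
    exfalso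
    apply h
    rw [Finset.mem_filter, Finset.mem_Icc]
    exact ⟨hG.supp' hvw, hvw⟩
  · intro v' _ hv'
    rw [Measure.finsetSum_apply]
    refine Finset.sum_eq_zero fun w' _ => ?_
    rw [Measure.smul_apply, Measure.dirac_apply' _ (MeasurableSet.of_discrete)]
    simp [hv']
  · intro h
    exact absurd (Finset.mem_Icc.2 ⟨hv1, hvn⟩) h

lemma pairLaw_prob (i : ℕ × SimpleGraph ℕ) : IsProbabilityMeasure (pairLaw i) := by
  classical
  obtain ⟨n, G⟩ := i
  unfold pairLaw
  split_ifs with h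
  · obtain ⟨hn, hG⟩ := h
    change 2 ≤ n at hn
    change Good n G at hG
    refine ⟨?_⟩
    rw [Measure.finsetSum_apply]
    have hn0 : (n : ℝ≥0∞) ≠ 0 := by
      have : n ≠ 0 := by omega
      exact_mod_cast this
    have hnt : (n : ℝ≥0∞) ≠ ⊤ := ENNReal.natCast_ne_top n
    have key : ∀ v ∈ Finset.Icc 1 n, (∑ w ∈ (Finset.Icc 1 n).filter (fun w => G.Adj v w),
        ((n : ℝ≥0∞)⁻¹ * (deg G v : ℝ≥0∞)⁻¹) • Measure.dirac (v, w) : Measure (ℕ × ℕ)) Set.univ
        = (n : ℝ≥0∞)⁻¹ := by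
      intro v hv
      rw [Finset.mem_Icc] at hv
      rw [Measure.finsetSum_apply]
      simp only [Measure.smul_apply, measure_univ, smul_eq_mul, mul_one, Finset.sum_const,
        nsmul_eq_mul]
      have h1 : ((Finset.Icc 1 n).filter (fun w => G.Adj v w)).card = deg G v := by
        rw [hG.deg_eq_card v]
        congr 1
        ext x
        simp only [Finset.mem_filter, SimpleGraph.adj_comm]
      rw [h1]
      have hd0 : (deg G v : ℝ≥0∞) ≠ 0 := by
        have : deg G v ≠ 0 := by have := hG.degpos v hv.1 hv.2; omega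
        exact_mod_cast this
      rw [mul_left_comm, ENNReal.mul_inv_cancel hd0 (ENNReal.natCast_ne_top _), mul_one]
    change ∑ v ∈ Finset.Icc 1 n, _ = 1
    rw [Finset.sum_congr rfl key, Finset.sum_const, Nat.card_Icc, Nat.add_sub_cancel,
      nsmul_eq_mul, ENNReal.mul_inv_cancel hn0 hnt]
  · infer_instance

/-- There is a random friend tree: the definition `IsRandomFriendTree` is not vacuous. -/
theorem exists_isRandomFriendTree :
    ∃ (μ : Measure (ℕ × SimpleGraph ℕ → ℕ × ℕ)) (_ : IsProbabilityMeasure μ)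
      (T : ℕ → (ℕ × SimpleGraph ℕ → ℕ × ℕ) → SimpleGraph ℕ)
      (V W : ℕ → (ℕ × SimpleGraph ℕ → ℕ × ℕ) → ℕ), IsRandomFriendTree μ T V W := by
  classical
  have := pairLaw_prob
  have hmle : ∀ S, mS S ≤ (inferInstance : MeasurableSpace (ℕ × SimpleGraph ℕ → ℕ × ℕ)) :=
    fun S => iSup₂_le fun i _ => (measurable_pi_apply i).comap_le
  have hmeas : ∀ n, 2 ≤ n → ∀ f : ℕ × ℕ → ℕ,
      Measurable (fun ω : ℕ × SimpleGraph ℕ → ℕ × ℕ => f (clamp n (Tc ω n) (ω (n, Tc ω n)))) := by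
    intro n hn f
    refine measurable_to_countable' fun x => ?_
    have e : (fun ω : ℕ × SimpleGraph ℕ → ℕ × ℕ => f (clamp n (Tc ω n) (ω (n, Tc ω n)))) ⁻¹' {x}
        = ⋃ H ∈ GG n, ({ω | Tc ω n = H} ∩ {ω | ω (n, H) ∈ {p | f (clamp n H p) = x}}) := by
      ext ω
      simp only [Set.mem_iUnion, Set.mem_ofPred_eq, exists_prop, Set.mem_inter_iff,
        Set.mem_preimage, Set.mem_singleton_iff]
      constructor
      · intro h
        refine ⟨Tc ω n, fun a b hab => ?_, rfl, h⟩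
        exact ⟨((Tc_good ω hn).supp a b hab).2, ((Tc_good ω hn).supp' hab).2⟩
      · rintro ⟨H, _, h1, h2⟩
        rw [h1]; exact h2
    rw [e]
    refine Set.Finite.measurableSet_biUnion (GG_finite n) fun H _ => ?_
    refine MeasurableSet.inter (hmle _ _ (Tc_measurable hn H)) ?_
    exact hmle _ _ (measurable_coord (Set.mem_univ _) _)
  refine ⟨Measure.infinitePi pairLaw, inferInstance, fun n ω => Tc ω n,
    fun n ω => (clamp n (Tc ω n) (ω (n, Tc ω n))).1,
    fun n ω => (clamp n (Tc ω n) (ω (n, Tc ω n))).2, ?_, ?_, ?_, ?_, ?_⟩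
  · intro n hn; exact hmeas n hn Prod.fst
  · intro n hn; exact hmeas n hn Prod.snd
  · intro ω; rfl
  · intro n hn ω; exact Tc_succ ω hn
  · intro n hn G v w hv1 hvn hvw
    by_cases hG : Good n G
    · have e1 : {ω : ℕ × SimpleGraph ℕ → ℕ × ℕ | Tc ω n = G ∧
          (clamp n (Tc ω n) (ω (n, Tc ω n))).1 = v ∧ (clamp n (Tc ω n) (ω (n, Tc ω n))).2 = w}
          = {ω | Tc ω n = G} ∩ {ω | ω (n, G) ∈ ({(v, w)} : Set (ℕ × ℕ))} := by
        ext ω
        simp only [Set.mem_ofPred_eq, Set.mem_inter_iff, Set.mem_singleton_iff]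
        constructor
        · rintro ⟨h1, h2, h3⟩
          refine ⟨h1, ?_⟩
          rw [h1] at h2 h3
          unfold clamp at h2 h3
          split_ifs at h2 h3 with h4
          · exact Prod.ext h2 h3
          · exfalso
            simp only at h2 h3
            rw [← h2, ← h3] at hvw
            exact G.loopless.irrefl _ hvw
        · rintro ⟨h1, h2⟩
          refine ⟨h1, ?_⟩
          rw [h1, h2]
          unfold clamp
          rw [if_pos ⟨hv1, hvn, hvw⟩]
          exact ⟨rfl, rfl⟩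
      rw [e1]
      have hind : iIndepFun (fun (i : ℕ × SimpleGraph ℕ) (ω : ℕ × SimpleGraph ℕ → ℕ × ℕ) => ω i)
          (Measure.infinitePi pairLaw) := by
        exact iIndepFun_infinitePi (P := pairLaw) (X := fun _ x => x) (fun i => measurable_id)
      have h2 := indep_iSup_of_disjoint (fun i => (measurable_pi_apply i).comap_le) hind
        (S := {i : ℕ × SimpleGraph ℕ | i.1 < n}) (T := {(n, G)}) (by
          rw [Set.disjoint_singleton_right]
          exact fun h : n < n => lt_irrefl _ h)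
      rw [Indep_iff] at h2
      have h3 := h2 {ω | Tc ω n = G} {ω | ω (n, G) ∈ ({(v, w)} : Set (ℕ × ℕ))}
        (Tc_measurable hn G) (measurable_coord (S := {(n, G)}) rfl _)
      rw [h3]
      congr 1
      rw [← pairLaw_apply hn hG hv1 hvn hvw]
      have h5 : Measure.map (fun ω : ℕ × SimpleGraph ℕ → ℕ × ℕ => ω (n, G))
          (Measure.infinitePi pairLaw) {(v, w)} = pairLaw (n, G) {(v, w)} := by
        rw [Measure.infinitePi_map_eval]
      rw [Measure.map_apply (measurable_pi_apply _) (MeasurableSet.of_discrete)] at h5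
      exact h5
    · have e1 : {ω : ℕ × SimpleGraph ℕ → ℕ × ℕ | Tc ω n = G} = ∅ := by
        ext ω
        simp only [Set.mem_ofPred_eq, Set.mem_empty_iff_false, iff_false]
        intro h
        exact hG (h ▸ Tc_good ω hn)
      have e2 : {ω : ℕ × SimpleGraph ℕ → ℕ × ℕ | Tc ω n = G ∧
          (clamp n (Tc ω n) (ω (n, Tc ω n))).1 = v ∧
          (clamp n (Tc ω n) (ω (n, Tc ω n))).2 = w} = ∅ := by
        ext ω
        simp only [Set.mem_ofPred_eq, Set.mem_empty_iff_false, iff_false]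
        intro h
        exact hG (h.1 ▸ Tc_good ω hn)
      rw [e1, e2]; simp

end existence

/-- **Main result.** Let `(T, V, W)` be a random friend tree on a probability space. Then almost
surely `∑_{i ≥ 1} Z_i = 1`. -/
theorem result {Ω : Type*} [MeasurableSpace Ω] (μ : Measure Ω) [IsProbabilityMeasure μ]
    (T : ℕ → Ω → SimpleGraph ℕ) (V W : ℕ → Ω → ℕ) (h : IsRandomFriendTree μ T V W) :
    ∀ᵐ ω ∂μ, HasSum (fun i : ℕ => Z T (i + 1) ω) 1 :=
  h.main

end Pool.Agent.Results.MP_29c4b2_pr.HubMassOne
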